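import Pool.Agent.W2helper88.ClawD

/-!
Claw-free cubic graphs: existence of a valid configuration and the packing colouring
(helper file).
-/

set_option autoImplicit false
set_option linter.unusedSectionVars false
set_option linter.unusedVariables false

namespace Pool.Agent.W2helper88.CP

open Finset

variable {V : Type} [Fintype V] [DecidableEq V] {G : SimpleGraph V}

def Near (G : SimpleGraph V) (T T' : Finset V) : Prop := ∃ x ∈ T, ∃ y ∈ T', G.Adj x y

theorem Near.symm {T T' : Finset V} (h : Near G T T') : Near G T' T := by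
  obtain ⟨x, hx, y, hy, h⟩ := h
  exact ⟨y, hy, x, hx, h.symm⟩

/-- a maximal independent family of plain triangles -/
theorem exists_I (hc : Cub G) : ∃ I : Finset (Finset V), (∀ T ∈ I, PT G T) ∧
    (∀ T ∈ I, ∀ T' ∈ I, T ≠ T' → ¬ Near G T T') ∧
    ∀ T, PT G T → T ∉ I → ∃ x ∈ T, ∃ y, Out G x y ∧ ∃ T' ∈ I, y ∈ T' := by
  classical
  obtain ⟨I, hI, hmax⟩ := ((univ : Finset (Finset (Finset V))).filter
    (fun I => (∀ T ∈ I, PT G T) ∧ ∀ T ∈ I, ∀ T' ∈ I, T ≠ T' → ¬ Near G T T')).exists_max_image
    (fun I => I.card) ⟨∅, by simp⟩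
  obtain ⟨-, hI1, hI2⟩ := mem_filter.1 hI
  refine ⟨I, hI1, hI2, fun T hT hTI => ?_⟩
  by_contra hcon
  have hn : ∀ T' ∈ I, ¬ Near G T T' := by
    rintro T' hT' ⟨x, hx, y, hy, hxy⟩
    rcases hT.adj hc hx hxy with h | h
    · exact hTI ((hT.eq hc (hI1 T' hT') h hy) ▸ hT')
    · exact hcon ⟨x, hx, y, h, T', hT', hy⟩
  have h1 := hmax (insert T I) (mem_filter.2 ⟨mem_univ _, ?_, ?_⟩)
  · rw [card_insert_of_notMem hTI] at h1
    omega
  · intro T' hT'
    rcases mem_insert.1 hT' with rfl | h
    · exact hT
    · exact hI1 T' h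
  · intro T1 h1 T2 h2 h12
    rcases mem_insert.1 h1 with h3 | h3
    · rcases mem_insert.1 h2 with h4 | h4
      · exact absurd (h3.trans h4.symm) h12
      · rw [h3]
        exact hn T2 h4
    · rcases mem_insert.1 h2 with h4 | h4
      · rw [h4]
        exact fun h => hn T1 h3 h.symm
      · exact hI2 T1 h3 T2 h4 h12

/-- representatives such that the outgoing neighbours lie in different triangles -/
theorem exists_sdr (hc : Cub G) (hcf : CF G) (I : Finset (Finset V)) (hI : ∀ T ∈ I, PT G T) :
    ∃ c : {T // T ∈ I} → V, (∀ T, c T ∈ T.1) ∧ ∀ (T T' : {T // T ∈ I}) (y y' : V),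
      Out G (c T) y → Out G (c T') y' → (∃ W, PT G W ∧ y ∈ W ∧ y' ∈ W) → T = T' := by
  classical
  let r : V → Finset V := fun y => if h : ∃ W, PT G W ∧ y ∈ W then h.choose else {y}
  have hr1 : ∀ y W, PT G W → y ∈ W → r y = W := by
    intro y W hW hy
    have h : ∃ W, PT G W ∧ y ∈ W := ⟨W, hW, hy⟩
    have h2 : r y = h.choose := dif_pos h
    rw [h2]
    exact h.choose_spec.1.eq hc hW h.choose_spec.2 hy
  have hr2 : ∀ y, y ∈ r y ∧ (r y).card ≤ 3 := by
    intro y
    by_cases h : ∃ W, PT G W ∧ y ∈ W
    · obtain ⟨W, hW, hy⟩ := h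
      rw [hr1 y W hW hy]
      exact ⟨hy, hW.1.le⟩
    · have h2 : r y = {y} := dif_neg h
      rw [h2]
      simp
  let o : V → V := fun x => if h : ∃ y, Out G x y then h.choose else x
  have ho : ∀ x y, Out G x y → o x = y := by
    intro x y hxy
    have h : ∃ y, Out G x y := ⟨y, hxy⟩
    have h2 : o x = h.choose := dif_pos h
    rw [h2]
    exact out_unique hc hcf h.choose_spec hxy
  let f : V → Finset V := fun x => r (o x)
  have hall : ∀ s : Finset {T // T ∈ I}, s.card ≤ (s.biUnion (fun T => T.1.image f)).card := by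
    intro s
    set P : Finset V := s.biUnion (fun T => T.1) with hP
    have hPcard : P.card = 3 * s.card := by
      rw [hP, card_biUnion]
      · rw [sum_congr rfl (fun T _ => (hI T.1 T.2).1), sum_const, smul_eq_mul, mul_comm]
      · intro T _ T' _ hTT'
        show Disjoint T.1 T'.1
        rw [disjoint_left]
        intro x hx hx'
        exact hTT' (Subtype.ext ((hI T.1 T.2).eq hc (hI T'.1 T'.2) hx hx'))
    have himg : P.image f ⊆ s.biUnion (fun T => T.1.image f) := by
      intro a ha
      obtain ⟨x, hx, rfl⟩ := mem_image.1 ha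
      obtain ⟨T, hT, hxT⟩ := mem_biUnion.1 hx
      exact mem_biUnion.2 ⟨T, hT, mem_image_of_mem f hxT⟩
    have hfib : ∀ a ∈ P.image f, (P.filter (fun x => f x = a)).card ≤ 3 := by
      intro a ha
      have hsub : ∀ x ∈ P.filter (fun x => f x = a), o x ∈ a := by
        intro x hx
        obtain ⟨hxP, hxa⟩ := mem_filter.1 hx
        rw [← hxa]
        exact (hr2 (o x)).1
      have hinj : Set.InjOn o ((P.filter (fun x => f x = a) : Finset V) : Set V) := by
        intro x hx x' hx' hxx
        have hxP := (mem_filter.1 (mem_coe.1 hx)).1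
        have hxP' := (mem_filter.1 (mem_coe.1 hx')).1
        obtain ⟨T, -, hxT⟩ := mem_biUnion.1 hxP
        obtain ⟨T', -, hxT'⟩ := mem_biUnion.1 hxP'
        obtain ⟨y, hy⟩ := (hI T.1 T.2).2.2 x hxT
        obtain ⟨y', hy'⟩ := (hI T'.1 T'.2).2.2 x' hxT'
        rw [ho x y hy, ho x' y' hy'] at hxx
        subst hxx
        exact out_unique hc hcf hy.symm hy'.symm
      have hle : (P.filter (fun x => f x = a)).card ≤ a.card := by
        rw [← card_image_of_injOn hinj]
        apply card_le_card
        intro y hy
        obtain ⟨x, hx, rfl⟩ := mem_image.1 hy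
        exact hsub x hx
      obtain ⟨x, -, rfl⟩ := mem_image.1 ha
      exact hle.trans (hr2 (o x)).2
    have h1 := card_le_mul_card_image P 3 hfib
    have h2 := card_le_card himg
    omega
  obtain ⟨F, hF1, hF2⟩ := (Finset.all_card_le_biUnion_card_iff_exists_injective _).1 hall
  have hF3 : ∀ T : {T // T ∈ I}, ∃ x ∈ T.1, f x = F T := fun T => by
    obtain ⟨x, hx, h⟩ := mem_image.1 (hF2 T)
    exact ⟨x, hx, h⟩
  choose c hc1 hc2 using hF3
  refine ⟨c, hc1, fun T T' y y' hy hy' hW => ?_⟩
  obtain ⟨W, hW, hyW, hyW'⟩ := hW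
  apply hF1
  rw [← hc2, ← hc2]
  show r (o (c T)) = r (o (c T'))
  rw [ho _ y hy, ho _ y' hy', hr1 y W hW hyW, hr1 y' W hW hyW']

theorem mid_of {a b c d : V} (h : N3 G a b c d) (h1 : G.Adj b c) (h2 : G.Adj b d) :
    Mid G a := by
  intro y hy
  rcases (h.2.2.2 y).1 hy.1 with rfl | rfl | rfl
  · exact hy.2 c h.a2 h1
  · exact hy.2 b h.a1 h1.symm
  · exact hy.2 b h.a1 h2.symm

/-- a valid configuration exists -/
theorem exists_valid (hc : Cub G) (hcf : CF G) : ∃ A B, Valid G A B := by
  classical
  obtain ⟨I, hI, hInd, hJ⟩ := exists_I (G := G) hc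
  obtain ⟨c, hcT, hcW⟩ := exists_sdr hc hcf I hI
  have hJ' : ∀ T : {T : Finset V // PT G T ∧ T ∉ I}, ∃ x ∈ T.1, ∃ y, Out G x y ∧
      ∃ T' ∈ I, y ∈ T' := fun T => hJ T.1 T.2.1 T.2.2
  choose g hgT y0 hgo T0 hT0 hyT0 using hJ'
  obtain ⟨e, he⟩ := exists_injective_nat V
  let PA : V → Prop := fun v => (∃ T, v = g T) ∨ (Mid G v ∧ ∀ w, G.Adj v w → Mid G w → e v < e w)
  let PB : V → Prop := fun v => (∃ T, v = c T) ∨ (Mid G v ∧ ∀ w, G.Adj v w → Mid G w ∧ e w < e v)
  have hgout : ∀ T, ¬ Mid G (g T) := fun T h => h _ (hgo T)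
  have hcout : ∀ T, ∃ y, Out G (c T) y := fun T => (hI T.1 T.2).2.2 _ (hcT T)
  have hcout' : ∀ T, ¬ Mid G (c T) := fun T h => by
    obtain ⟨y, hy⟩ := hcout T
    exact h y hy
  have hTMid : ∀ T v, Mid G v → ¬ D2 G (g T) v := by
    intro T v hv hD
    have hP0 := hI (T0 T) (hT0 T)
    rcases hD with h | ⟨w, h1, h2⟩
    · rcases T.2.1.adj hc (hgT T) h with h | h
      · obtain ⟨y, hy⟩ := T.2.1.2.2 v h
        exact hv y hy
      · exact hv _ h.symm
    · rcases T.2.1.adj hc (hgT T) h1 with h | h
      · rcases T.2.1.adj hc h h2 with h | h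
        · obtain ⟨y, hy⟩ := T.2.1.2.2 v h
          exact hv y hy
        · exact hv _ h.symm
      · have hw : w = y0 T := out_unique hc hcf h (hgo T)
        subst hw
        rcases hP0.adj hc (hyT0 T) h2 with h | h
        · obtain ⟨y, hy⟩ := hP0.2.2 v h
          exact hv y hy
        · exact hv _ h.symm
  have hK4 : ∀ v, (Mid G v ∧ ∀ w, G.Adj v w → Mid G w ∧ e w < e v) → ∀ z, D3 G v z →
      z = v ∨ G.Adj v z := fun v hv z hz => k4_d3 hc hcf hv.1 (fun w hw => (hv.2 w hw).1) hz
  refine ⟨univ.filter PA, univ.filter PB, ?_, ?_, ?_, ?_⟩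
  · -- disjoint
    intro v hv hv'
    rcases (mem_filter.1 hv).2 with ⟨T, rfl⟩ | ⟨h1, h2⟩
    · rcases (mem_filter.1 hv').2 with ⟨T', h⟩ | ⟨h3, h4⟩
      · have : T.1 = T'.1 := T.2.1.eq hc (hI T'.1 T'.2) (hgT T) (h ▸ hcT T')
        exact T.2.2 (this ▸ T'.2)
      · exact hgout T h3
    · rcases (mem_filter.1 hv').2 with ⟨T', h⟩ | ⟨h3, h4⟩
      · exact hcout' T' (h ▸ h1)
      · obtain ⟨a, b, d, h5⟩ := hc v
        have h6 := h4 a h5.a1
        have h7 := h2 a h5.a1 h6.1
        omega
  · -- 2-packing
    intro u hu v hv huv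
    rcases (mem_filter.1 hu).2 with ⟨T, rfl⟩ | ⟨h1, h2⟩
    · rcases (mem_filter.1 hv).2 with ⟨T', rfl⟩ | ⟨h3, h4⟩
      · have hP0 := hI (T0 T) (hT0 T)
        have hno : ∀ (S : {T : Finset V // PT G T ∧ T ∉ I}) (W : Finset V), W ∈ I → ∀ z, z ∈ S.1 →
            z ∈ W → False := by
          intro S W hW z hz hzW
          exact S.2.2 (S.2.1.eq hc (hI W hW) hz hzW ▸ hW)
        have hsame : g T' ∈ T.1 → g T = g T' := by
          intro h
          have : T = T' := Subtype.ext (T.2.1.eq hc T'.2.1 h (hgT T'))
          rw [this]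
        rcases huv with h | ⟨w, h1, h2⟩
        · rcases T.2.1.adj hc (hgT T) h with h | h
          · exact hsame h
          · have hw : g T' = y0 T := out_unique hc hcf h (hgo T)
            exact (hno T' (T0 T) (hT0 T) _ (hgT T') (hw ▸ hyT0 T)).elim
        · rcases T.2.1.adj hc (hgT T) h1 with h | h
          · rcases T.2.1.adj hc h h2 with h' | h'
            · exact hsame h'
            · have hw : w = y0 T' := out_unique hc hcf h'.symm (hgo T')
              exact (hno T (T0 T') (hT0 T') w h (hw ▸ hyT0 T')).elim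
          · have hw : w = y0 T := out_unique hc hcf h (hgo T)
            subst hw
            rcases hP0.adj hc (hyT0 T) h2 with h' | h'
            · exact (hno T' (T0 T) (hT0 T) _ (hgT T') h').elim
            · exact out_unique hc hcf h.symm h'
      · exact absurd huv (hTMid T v h3)
    · rcases (mem_filter.1 hv).2 with ⟨T', rfl⟩ | ⟨h3, h4⟩
      · exact absurd huv.symm (hTMid T' u h1)
      · rcases mid_mid hc hcf h1 h3 huv with h | h
        · exact h
        · have h5 := h2 v h h3
          have h6 := h4 u h.symm h1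
          omega
  · -- 3-packing
    intro u hu v hv huv
    rcases (mem_filter.1 hu).2 with ⟨T, rfl⟩ | h1
    · rcases (mem_filter.1 hv).2 with ⟨T', rfl⟩ | h3
      · by_contra hne
        have hTT : T ≠ T' := fun h => hne (by rw [h])
        have hTT' : T.1 ≠ T'.1 := fun h => hTT (Subtype.ext h)
        have hN : ∀ x ∈ T.1, ∀ y ∈ T'.1, ¬ G.Adj x y := fun x hx y hy h =>
          hInd T.1 T.2 T'.1 T'.2 hTT' ⟨x, hx, y, hy, h⟩
        have hP := hI T.1 T.2
        have hP' := hI T'.1 T'.2
        have hdis : ∀ x, x ∈ T.1 → x ∈ T'.1 → False := fun x hx hx' => hTT' (hP.eq hc hP' hx hx')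
        rcases huv with h | ⟨w, h1, h2⟩ | ⟨w, w', h1, h2, h3⟩
        · exact hN _ (hcT T) _ (hcT T') h
        · rcases hP.adj hc (hcT T) h1 with h | h
          · exact hN w h _ (hcT T') h2
          · rcases hP'.adj hc (hcT T') h2.symm with h' | h'
            · exact hN _ (hcT T) w h' h1
            · exact hne (out_unique hc hcf h.symm h'.symm)
        · rcases hP.adj hc (hcT T) h1 with h | h
          · rcases hP.adj hc h h2 with h4 | h4
            · exact hN w' h4 _ (hcT T') h3
            · rcases hP'.adj hc (hcT T') h3.symm with h5 | h5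
              · exact hN w h w' h5 h2
              · have h6 : w = c T' := out_unique hc hcf h4.symm h5.symm
                exact hdis w h (h6 ▸ hcT T')
          · rcases hP'.adj hc (hcT T') h3.symm with h5 | h5
            · rcases hP'.adj hc h5 h2.symm with h6 | h6
              · exact hN _ (hcT T) w h6 h1
              · have h7 : w' = c T := out_unique hc hcf h6.symm h.symm
                exact hdis _ (hcT T) (h7 ▸ h5)
            · have h6 : w' ≠ c T := fun h7 => hN _ (hcT T) _ (hcT T') (h7 ▸ h3)
              have h7 : w ≠ c T' := fun h8 => hN _ (hcT T) _ (hcT T') (h8 ▸ h1)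
              obtain ⟨W, hW, hw, hw'⟩ := PT.mk' hc hcf h.symm h5.symm h2 h6 h7
              exact hTT (hcW T T' w w' h h5 ⟨W, hW, hw, hw'⟩)
      · exfalso
        rcases hK4 v h3 _ huv.symm with h | h
        · exact hcout' T (h ▸ h3.1)
        · exact hcout' T (h3.2 _ h).1
    · rcases (mem_filter.1 hv).2 with ⟨T', rfl⟩ | h3
      · exfalso
        rcases hK4 u h1 _ huv with h | h
        · exact hcout' T' (h ▸ h1.1)
        · exact hcout' T' (h1.2 _ h).1
      · rcases hK4 u h1 v huv with h | h
        · exact h.symm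
        · have h5 := (h1.2 v h).2
          have h6 := (h3.2 u h.symm).2
          omega
  · -- all triangles are met
    have hmid : ∀ x y z, Mid G x → G.Adj x y → G.Adj y z → G.Adj x z →
        x ∈ univ.filter PA ∪ univ.filter PB ∨ y ∈ univ.filter PA ∪ univ.filter PB ∨
          z ∈ univ.filter PA ∪ univ.filter PB := by
      intro x y z hx hxy hyz hxz
      have inA : ∀ v, PA v → v ∈ univ.filter PA ∪ univ.filter PB := fun v hv =>
        mem_union_left _ (mem_filter.2 ⟨mem_univ _, hv⟩)
      have inB : ∀ v, PB v → v ∈ univ.filter PA ∪ univ.filter PB := fun v hv =>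
        mem_union_right _ (mem_filter.2 ⟨mem_univ _, hv⟩)
      obtain ⟨p, q, s, hn, hp, hpm⟩ := mid_nf hc hcf hx
      by_cases hqs : G.Adj q s
      · -- a component K_4
        have hq : N3 G q x p s := full hc hn.a2.symm hp.a2.symm hqs
          (fun h => by subst h; exact G.loopless.1 _ hn.a1)
          (fun h => by subst h; exact G.loopless.1 _ hn.a3) hn.2.1
        have hs : N3 G s x p q := full hc hn.a3.symm hp.a3.symm hqs.symm
          (fun h => by subst h; exact G.loopless.1 _ hn.a1)
          (fun h => by subst h; exact G.loopless.1 _ hn.a2) hn.1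
        have hqm : Mid G q := mid_of hq hn.a1 hn.a3
        have hsm : Mid G s := mid_of hs hn.a1 hn.a2
        have hKm : ∀ v ∈ ({x, p, q, s} : Finset V), Mid G v := by
          intro v hv
          simp only [mem_insert, mem_singleton] at hv
          rcases hv with rfl | rfl | rfl | rfl
          · exact hx
          · exact hpm
          · exact hqm
          · exact hsm
        have hKc : ∀ v ∈ ({x, p, q, s} : Finset V), ∀ w, G.Adj v w →
            w ∈ ({x, p, q, s} : Finset V) := by
          intro v hv w hw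
          simp only [mem_insert, mem_singleton] at hv ⊢
          rcases hv with rfl | rfl | rfl | rfl
          · rcases (hn.2.2.2 w).1 hw with h | h | h <;> simp [h]
          · rcases (hp.2.2.2 w).1 hw with h | h | h <;> simp [h]
          · rcases (hq.2.2.2 w).1 hw with h | h | h <;> simp [h]
          · rcases (hs.2.2.2 w).1 hw with h | h | h <;> simp [h]
        have hlt : ∀ v w, G.Adj v w → e v ≤ e w → e v < e w := by
          intro v w hvw hle
          refine lt_of_le_of_ne hle (fun h => ?_)
          have := he h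
          subst this
          exact G.loopless.1 _ hvw
        obtain ⟨m, hm, hmin⟩ := exists_min_image ({x, p, q, s} : Finset V) e ⟨x, by simp⟩
        obtain ⟨M, hM, hmax⟩ := exists_max_image ({x, p, q, s} : Finset V) e ⟨x, by simp⟩
        have hmA : PA m := Or.inr ⟨hKm m hm, fun w hw _ => hlt m w hw (hmin w (hKc m hm w hw))⟩
        have hMB : PB M := Or.inr ⟨hKm M hM, fun w hw =>
          ⟨hKm w (hKc M hM w hw), hlt w M hw.symm (hmax w (hKc M hM w hw))⟩⟩
        have hmM : m ≠ M := by
          rintro rfl
          obtain ⟨a, b, d, h5⟩ := hc m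
          have h6 := hlt m a h5.a1 (hmin a (hKc m hm a h5.a1))
          have h7 := hmax a (hKc m hm a h5.a1)
          omega
        have hyne : y ≠ z := fun h => by subst h; exact G.loopless.1 _ hyz
        obtain ⟨r, hr⟩ : ∃ r, ∀ a ∈ ({x, p, q, s} : Finset V), a = x ∨ a = y ∨ a = z ∨ a = r := by
          rcases (hn.2.2.2 y).1 hxy with rfl | rfl | rfl <;>
            rcases (hn.2.2.2 z).1 hxz with rfl | rfl | rfl
          · exact absurd rfl hyne
          · exact ⟨s, fun a ha => by simpa using ha⟩
          · refine ⟨q, fun a ha => ?_⟩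
            simp only [mem_insert, mem_singleton] at ha
            tauto
          · refine ⟨s, fun a ha => ?_⟩
            simp only [mem_insert, mem_singleton] at ha
            tauto
          · exact absurd rfl hyne
          · refine ⟨p, fun a ha => ?_⟩
            simp only [mem_insert, mem_singleton] at ha
            tauto
          · refine ⟨q, fun a ha => ?_⟩
            simp only [mem_insert, mem_singleton] at ha
            tauto
          · refine ⟨p, fun a ha => ?_⟩
            simp only [mem_insert, mem_singleton] at ha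
            tauto
          · exact absurd rfl hyne
        rcases hr m hm with h | h | h | h
        · exact Or.inl (h ▸ inA m hmA)
        · exact Or.inr (Or.inl (h ▸ inA m hmA))
        · exact Or.inr (Or.inr (h ▸ inA m hmA))
        · rcases hr M hM with h' | h' | h' | h'
          · exact Or.inl (h' ▸ inB M hMB)
          · exact Or.inr (Or.inl (h' ▸ inB M hMB))
          · exact Or.inr (Or.inr (h' ▸ inB M hMB))
          · exact absurd (h.trans h'.symm) hmM
      · -- a diamond
        have hqm : ¬ Mid G q := by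
          intro h
          obtain ⟨t, ht, ht'⟩ := mid_q hc hcf hn hp
          have := ht' (h t)
          subst this
          exact hqs ht.a3
        have hsm : ¬ Mid G s := by
          intro h
          obtain ⟨t, ht, ht'⟩ := mid_q hc hcf hn.rot.swap.rot.rot hp.rot.swap.rot.rot
          have := ht' (h t)
          subst this
          exact hqs ht.a3.symm
        have hpyz : p = y ∨ p = z := by
          rcases (hn.2.2.2 y).1 hxy with rfl | rfl | rfl
          · exact Or.inl rfl
          · rcases (hn.2.2.2 z).1 hxz with rfl | rfl | rfl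
            · exact Or.inr rfl
            · exact absurd hyz (G.loopless.1 _)
            · exact absurd hyz hqs
          · rcases (hn.2.2.2 z).1 hxz with rfl | rfl | rfl
            · exact Or.inr rfl
            · exact absurd hyz.symm hqs
            · exact absurd hyz (G.loopless.1 _)
        have hxp : e x ≠ e p := fun h => by
          have := he h
          subst this
          exact G.loopless.1 _ hn.a1
        rcases lt_or_gt_of_ne hxp with h | h
        · left
          apply inA
          refine Or.inr ⟨hx, fun w hw hwm => ?_⟩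
          rcases (hn.2.2.2 w).1 hw with rfl | rfl | rfl
          · exact h
          · exact absurd hwm hqm
          · exact absurd hwm hsm
        · have hpA : p ∈ univ.filter PA ∪ univ.filter PB := by
            apply inA
            refine Or.inr ⟨hpm, fun w hw hwm => ?_⟩
            rcases (hp.2.2.2 w).1 hw with rfl | rfl | rfl
            · exact h
            · exact absurd hwm hqm
            · exact absurd hwm hsm
          rcases hpyz with h' | h'
          · exact Or.inr (Or.inl (h' ▸ hpA))
          · exact Or.inr (Or.inr (h' ▸ hpA))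
    intro x y z hxy hyz hxz
    by_cases hx : Mid G x
    · exact hmid x y z hx hxy hyz hxz
    by_cases hy : Mid G y
    · rcases hmid y z x hy hyz hxz.symm hxy.symm with h | h | h
      · exact Or.inr (Or.inl h)
      · exact Or.inr (Or.inr h)
      · exact Or.inl h
    by_cases hz : Mid G z
    · rcases hmid z x y hz hxz.symm hxy hyz.symm with h | h | h
      · exact Or.inr (Or.inr h)
      · exact Or.inl h
      · exact Or.inr (Or.inl h)
    have hout : ∀ v, ¬ Mid G v → ∃ w, Out G v w := by
      intro v hv
      unfold Mid at hv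
      push Not at hv
      exact hv
    have hP : PT G {x, y, z} := by
      refine ⟨card_eq_three.2 ⟨x, y, z, ?_, ?_, ?_, rfl⟩, ?_, ?_⟩
      · exact fun h => by subst h; exact G.loopless.1 _ hxy
      · exact fun h => by subst h; exact G.loopless.1 _ hxz
      · exact fun h => by subst h; exact G.loopless.1 _ hyz
      · intro a ha b hb hab
        simp only [mem_insert, mem_singleton] at ha hb
        rcases ha with rfl | rfl | rfl <;> rcases hb with rfl | rfl | rfl
        · exact absurd rfl hab
        · exact hxy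
        · exact hxz
        · exact hxy.symm
        · exact absurd rfl hab
        · exact hyz
        · exact hxz.symm
        · exact hyz.symm
        · exact absurd rfl hab
      · intro a ha
        simp only [mem_insert, mem_singleton] at ha
        rcases ha with rfl | rfl | rfl
        · exact hout _ hx
        · exact hout _ hy
        · exact hout _ hz
    by_cases hTI : ({x, y, z} : Finset V) ∈ I
    · have h1 := hcT ⟨_, hTI⟩
      have h2 : c ⟨_, hTI⟩ ∈ univ.filter PA ∪ univ.filter PB :=
        mem_union_right _ (mem_filter.2 ⟨mem_univ _, Or.inl ⟨_, rfl⟩⟩)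
      simp only [mem_insert, mem_singleton] at h1
      rcases h1 with h | h | h
      · exact Or.inl (h ▸ h2)
      · exact Or.inr (Or.inl (h ▸ h2))
      · exact Or.inr (Or.inr (h ▸ h2))
    · have h1 := hgT ⟨_, hP, hTI⟩
      have h2 : g ⟨_, hP, hTI⟩ ∈ univ.filter PA ∪ univ.filter PB :=
        mem_union_left _ (mem_filter.2 ⟨mem_univ _, Or.inl ⟨_, rfl⟩⟩)
      simp only [mem_insert, mem_singleton] at h1
      rcases h1 with h | h | h
      · exact Or.inl (h ▸ h2)
      · exact Or.inr (Or.inl (h ▸ h2))
      · exact Or.inr (Or.inr (h ▸ h2))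

/-- The packing colouring: classes `0`, `1` are independent, class `2` is a 2-packing and class `3`
a 3-packing. -/
theorem exists_colouring (hc : Cub G) (hcf : CF G) : ∃ f : V → Fin 4,
    (∀ u v, f u = 0 → f v = 0 → ¬ G.Adj u v) ∧ (∀ u v, f u = 1 → f v = 1 → ¬ G.Adj u v) ∧
    (∀ u v, f u = 2 → f v = 2 → D2 G u v → u = v) ∧
    (∀ u v, f u = 3 → f v = 3 → D3 G u v → u = v) := by
  classical
  obtain ⟨A₀, B₀, h₀⟩ := exists_valid hc hcf
  obtain ⟨⟨A, B⟩, hAB, hmin⟩ := ((univ : Finset (Finset V × Finset V)).filter
    (fun P => Valid G P.1 P.2)).exists_min_image (fun P => (core G (P.1 ∪ P.2)).card)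
    ⟨(A₀, B₀), mem_filter.2 ⟨mem_univ _, h₀⟩⟩
  have hV : Valid G A B := (mem_filter.1 hAB).2
  obtain ⟨χ, hχ⟩ := two_colour hc hcf hV (fun A' B' h' => hmin (A', B')
    (mem_filter.2 ⟨mem_univ _, h'⟩))
  let f : V → Fin 4 := fun v => if v ∈ A then 2 else if v ∈ B then 3 else if χ v then 0 else 1
  have f0 : ∀ v, f v = 0 → v ∉ A ∪ B ∧ χ v = true := by
    intro v hv
    simp only [f] at hv
    split_ifs at hv with h1 h2 h3
    · exact absurd hv (by decide)
    · exact absurd hv (by decide)
    · exact ⟨fun h => by rcases mem_union.1 h with h | h <;> contradiction, h3⟩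
    · exact absurd hv (by decide)
  have f1 : ∀ v, f v = 1 → v ∉ A ∪ B ∧ χ v = false := by
    intro v hv
    simp only [f] at hv
    split_ifs at hv with h1 h2 h3
    · exact absurd hv (by decide)
    · exact absurd hv (by decide)
    · exact absurd hv (by decide)
    · exact ⟨fun h => by rcases mem_union.1 h with h | h <;> contradiction, by simpa using h3⟩
  have f2 : ∀ v, f v = 2 → v ∈ A := by
    intro v hv
    simp only [f] at hv
    split_ifs at hv with h1 h2 h3
    · exact h1
    · exact absurd hv (by decide)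
    · exact absurd hv (by decide)
    · exact absurd hv (by decide)
  have f3 : ∀ v, f v = 3 → v ∈ B := by
    intro v hv
    simp only [f] at hv
    split_ifs at hv with h1 h2 h3
    · exact absurd hv (by decide)
    · exact h2
    · exact absurd hv (by decide)
    · exact absurd hv (by decide)
  refine ⟨f, ?_, ?_, ?_, ?_⟩
  · intro u v hu hv huv
    exact hχ u (f0 u hu).1 v (f0 v hv).1 huv ((f0 u hu).2.trans (f0 v hv).2.symm)
  · intro u v hu hv huv
    exact hχ u (f1 u hu).1 v (f1 v hv).1 huv ((f1 u hu).2.trans (f1 v hv).2.symm)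
  · intro u v hu hv huv
    exact hV.pa u (f2 u hu) v (f2 v hv) huv
  · intro u v hu hv huv
    exact hV.pb u (f3 u hu) v (f3 v hv) huv

end Pool.Agent.W2helper88.CP
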