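import Mathlib

/-!
Claw-free cubic graphs: configurations of a 2-packing and a 3-packing meeting all triangles, and
their 2-cores (helper file).
-/

set_option autoImplicit false
set_option linter.unusedSectionVars false
set_option linter.unusedVariables false

namespace Pool.Agent.W2helper88.CP

open Finset

variable {V : Type} [Fintype V] [DecidableEq V] {G : SimpleGraph V}

/-- three neighbours -/
def N3 (G : SimpleGraph V) (x a b c : V) : Prop :=
  a ≠ b ∧ a ≠ c ∧ b ≠ c ∧ ∀ w, G.Adj x w ↔ w = a ∨ w = b ∨ w = c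

def Cub (G : SimpleGraph V) : Prop := ∀ x, ∃ a b c, N3 G x a b c

def CF (G : SimpleGraph V) : Prop :=
  ∀ v a b c, G.Adj v a → G.Adj v b → G.Adj v c → a ≠ b → a ≠ c → b ≠ c →
    G.Adj a b ∨ G.Adj a c ∨ G.Adj b c

theorem N3.rot {x a b c : V} (h : N3 G x a b c) : N3 G x b c a := by
  obtain ⟨h1, h2, h3, h4⟩ := h
  refine ⟨h3, h1.symm, h2.symm, fun w => ?_⟩
  rw [h4]; tauto

theorem N3.swap {x a b c : V} (h : N3 G x a b c) : N3 G x b a c := by
  obtain ⟨h1, h2, h3, h4⟩ := h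
  refine ⟨h1.symm, h3, h2, fun w => ?_⟩
  rw [h4]; tauto

theorem N3.a1 {x a b c : V} (h : N3 G x a b c) : G.Adj x a := (h.2.2.2 a).2 (Or.inl rfl)
theorem N3.a2 {x a b c : V} (h : N3 G x a b c) : G.Adj x b := (h.2.2.2 b).2 (Or.inr (Or.inl rfl))
theorem N3.a3 {x a b c : V} (h : N3 G x a b c) : G.Adj x c := (h.2.2.2 c).2 (Or.inr (Or.inr rfl))

/-- two known neighbours determine a third one -/
theorem third (hc : Cub G) {x u v : V} (hu : G.Adj x u) (hv : G.Adj x v) (huv : u ≠ v) :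
    ∃ r, N3 G x u v r := by
  obtain ⟨a, b, c, h⟩ := hc x
  rcases (h.2.2.2 u).1 hu with rfl | rfl | rfl <;> rcases (h.2.2.2 v).1 hv with rfl | rfl | rfl
  · exact absurd rfl huv
  · exact ⟨_, h⟩
  · exact ⟨_, h.rot.rot.swap⟩
  · exact ⟨_, h.swap⟩
  · exact absurd rfl huv
  · exact ⟨_, h.rot⟩
  · exact ⟨_, h.rot.rot⟩
  · exact ⟨_, h.rot.swap⟩
  · exact absurd rfl huv

/-- three known neighbours -/
theorem full (hc : Cub G) {x u v w : V} (hu : G.Adj x u) (hv : G.Adj x v) (hw : G.Adj x w)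
    (huv : u ≠ v) (huw : u ≠ w) (hvw : v ≠ w) : N3 G x u v w := by
  obtain ⟨r, h⟩ := third hc hu hv huv
  rcases (h.2.2.2 w).1 hw with rfl | rfl | rfl
  · exact absurd rfl huw
  · exact absurd rfl hvw
  · exact h

/-- distance one or two -/
def D2 (G : SimpleGraph V) (u v : V) : Prop := G.Adj u v ∨ ∃ w, G.Adj u w ∧ G.Adj w v

/-- distance at most three (by a walk of length 1, 2 or 3) -/
def D3 (G : SimpleGraph V) (u v : V) : Prop :=
  G.Adj u v ∨ (∃ w, G.Adj u w ∧ G.Adj w v) ∨ ∃ w w', G.Adj u w ∧ G.Adj w w' ∧ G.Adj w' v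

theorem D2.symm {u v : V} (h : D2 G u v) : D2 G v u := by
  rcases h with h | ⟨w, h1, h2⟩
  · exact Or.inl h.symm
  · exact Or.inr ⟨w, h2.symm, h1.symm⟩

theorem D3.symm {u v : V} (h : D3 G u v) : D3 G v u := by
  rcases h with h | ⟨w, h1, h2⟩ | ⟨w, w', h1, h2, h3⟩
  · exact Or.inl h.symm
  · exact Or.inr (Or.inl ⟨w, h2.symm, h1.symm⟩)
  · exact Or.inr (Or.inr ⟨w', w, h3.symm, h2.symm, h1.symm⟩)

/-- a configuration: `A` is a 2-packing, `B` a 3-packing, they meet all triangles -/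
structure Valid (G : SimpleGraph V) (A B : Finset V) : Prop where
  disj : ∀ v ∈ A, v ∉ B
  pa : ∀ u ∈ A, ∀ v ∈ A, D2 G u v → u = v
  pb : ∀ u ∈ B, ∀ v ∈ B, D3 G u v → u = v
  hit : ∀ x y z, G.Adj x y → G.Adj y z → G.Adj x z → x ∈ A ∪ B ∨ y ∈ A ∪ B ∨ z ∈ A ∪ B

/-- `S` avoids `R` and every vertex of `S` has two neighbours in `S` -/
def IsC (G : SimpleGraph V) (R S : Finset V) : Prop :=
  (∀ x ∈ S, x ∉ R) ∧ ∀ x ∈ S, ∃ u ∈ S, ∃ v ∈ S, u ≠ v ∧ G.Adj x u ∧ G.Adj x v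

open Classical in
/-- the 2-core of `G - R` -/
noncomputable def core (G : SimpleGraph V) (R : Finset V) : Finset V :=
  univ.filter (fun x => ∃ S, IsC G R S ∧ x ∈ S)

theorem mem_core {R : Finset V} {x : V} : x ∈ core G R ↔ ∃ S, IsC G R S ∧ x ∈ S := by
  unfold core
  simp

theorem core_isC (R : Finset V) : IsC G R (core G R) := by
  refine ⟨?_, ?_⟩
  · intro x hx
    obtain ⟨S, hS, hxS⟩ := mem_core.1 hx
    exact hS.1 x hxS
  · intro x hx
    obtain ⟨S, hS, hxS⟩ := mem_core.1 hx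
    obtain ⟨u, hu, v, hv, h⟩ := hS.2 x hxS
    exact ⟨u, mem_core.2 ⟨S, hS, hu⟩, v, mem_core.2 ⟨S, hS, hv⟩, h⟩

theorem sub_core {R S : Finset V} (h : IsC G R S) : S ⊆ core G R :=
  fun x hx => mem_core.2 ⟨S, h, hx⟩

theorem core_mono {R R' : Finset V} (h : R ⊆ R') : core G R' ⊆ core G R := by
  intro x hx
  obtain ⟨S, hS, hxS⟩ := mem_core.1 hx
  exact mem_core.2 ⟨S, ⟨fun y hy hyR => hS.1 y hy (h hyR), hS.2⟩, hxS⟩

/-- structure at a vertex of the core -/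
theorem core_struct (hc : Cub G) (hcf : CF G) {R : Finset V}
    (hit : ∀ x y z, G.Adj x y → G.Adj y z → G.Adj x z → x ∈ R ∨ y ∈ R ∨ z ∈ R) {x : V}
    (hx : x ∈ core G R) :
    ∃ p q y, N3 G x p q y ∧ p ∈ R ∧ q ∈ core G R ∧ y ∈ core G R ∧ G.Adj p q ∧ ¬ G.Adj q y := by
  obtain ⟨hR, h2⟩ := core_isC (G := G) R
  obtain ⟨u, hu, v, hv, huv, hxu, hxv⟩ := h2 x hx
  obtain ⟨r, hr⟩ := third hc hxu hxv huv
  have hnuv : ¬ G.Adj u v := by
    intro h
    rcases hit x u v hxu h hxv with h' | h' | h'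
    · exact hR x hx h'
    · exact hR u hu h'
    · exact hR v hv h'
  rcases hcf x u v r hr.a1 hr.a2 hr.a3 hr.1 hr.2.1 hr.2.2.1 with h | h | h
  · exact absurd h hnuv
  · have hrR : r ∈ R := by
      rcases hit x u r hxu h hr.a3 with h' | h' | h'
      · exact absurd h' (hR x hx)
      · exact absurd h' (hR u hu)
      · exact h'
    exact ⟨r, u, v, hr.rot.rot, hrR, hu, hv, h.symm, hnuv⟩
  · have hrR : r ∈ R := by
      rcases hit x v r hxv h hr.a3 with h' | h' | h'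
      · exact absurd h' (hR x hx)
      · exact absurd h' (hR v hv)
      · exact h'
    exact ⟨r, v, u, hr.rot.swap, hrR, hv, hu, h.symm, fun h => hnuv h.symm⟩

end Pool.Agent.W2helper88.CP
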