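import Pool.Agent.W2helper88.ClawA

/-!
Claw-free cubic graphs: configurations with a smallest 2-core (helper file).
-/

set_option autoImplicit false
set_option linter.unusedSectionVars false
set_option linter.unusedVariables false

namespace Pool.Agent.W2helper88.CP

open Finset

variable {V : Type} [Fintype V] [DecidableEq V] {G : SimpleGraph V}

/-- handshake: a vertex set in which all vertices but one have exactly two neighbours and the
remaining one has exactly one is impossible -/
theorem parity (S : Finset V) (t : V) (ht : t ∈ S)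
    (h2 : ∀ x ∈ S, x ≠ t → ∃ u v, u ≠ v ∧ ∀ w, (w ∈ S ∧ G.Adj x w) ↔ (w = u ∨ w = v))
    (h1 : ∃ u, ∀ w, (w ∈ S ∧ G.Adj t w) ↔ w = u) : False := by
  classical
  let H : SimpleGraph V :=
    { Adj := fun a b => a ∈ S ∧ b ∈ S ∧ G.Adj a b
      symm := ⟨fun a b h => ⟨h.2.1, h.1, h.2.2.symm⟩⟩
      loopless := ⟨fun a h => G.loopless.1 a h.2.2⟩ }
  have hodd : univ.filter (fun v => Odd (H.degree v)) = {t} := by
    ext x
    simp only [mem_filter, mem_univ, true_and, mem_singleton]
    constructor
    · intro hx
      by_contra hne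
      by_cases hxS : x ∈ S
      · obtain ⟨u, v, huv, hw⟩ := h2 x hxS hne
        have : H.neighborFinset x = {u, v} := by
          ext w
          rw [SimpleGraph.mem_neighborFinset, mem_insert, mem_singleton, ← hw]
          exact ⟨fun h => ⟨h.2.1, h.2.2⟩, fun h => ⟨hxS, h.1, h.2⟩⟩
        rw [← SimpleGraph.card_neighborFinset_eq_degree, this, card_pair huv] at hx
        exact absurd hx (by decide)
      · have : H.neighborFinset x = ∅ := by
          ext w
          rw [SimpleGraph.mem_neighborFinset]
          simp only [notMem_empty, iff_false]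
          intro h
          exact hxS h.1
        rw [← SimpleGraph.card_neighborFinset_eq_degree, this, card_empty] at hx
        exact absurd hx (by decide)
    · rintro rfl
      obtain ⟨u, hw⟩ := h1
      have : H.neighborFinset x = {u} := by
        ext w
        rw [SimpleGraph.mem_neighborFinset, mem_singleton, ← hw]
        exact ⟨fun h => ⟨h.2.1, h.2.2⟩, fun h => ⟨ht, h.1, h.2⟩⟩
      rw [← SimpleGraph.card_neighborFinset_eq_degree, this, card_singleton]
      decide
  have heven := SimpleGraph.even_card_odd_degree_vertices H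
  rw [hodd, card_singleton] at heven
  exact absurd heven (by decide)

/-- the unique neighbour in `R` of a core vertex -/
theorem nbrR {R : Finset V} {x p q y r : V} (h : N3 G x p q y)
    (hq : q ∈ core G R) (hy : y ∈ core G R) (hr : r ∈ R) (hxr : G.Adj x r) : r = p := by
  rcases (h.2.2.2 r).1 hxr with rfl | rfl | rfl
  · rfl
  · exact absurd hr ((core_isC R).1 _ hq)
  · exact absurd hr ((core_isC R).1 _ hy)

section
variable (hc : Cub G) (hcf : CF G) {R : Finset V}
  (hit : ∀ x y z, G.Adj x y → G.Adj y z → G.Adj x z → x ∈ R ∨ y ∈ R ∨ z ∈ R)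
include hc hcf hit

/-- the end `q` of a diamond with middle vertices `x`, `p` -/
theorem end_struct {x p q y : V} (hx : x ∈ core G R) (hp : N3 G p x q y)
    (hpR : p ∈ R) (hq : q ∈ core G R) (hqx : G.Adj q x) (hqy : ¬ G.Adj q y) :
    ∃ y', N3 G q p x y' ∧ y' ∈ core G R ∧ ¬ G.Adj x y' := by
  have hcR := (core_isC (G := G) R).1
  obtain ⟨p', q', w, h1, h2, h3, h4, h5, h6⟩ := core_struct hc hcf hit hq
  have hpp : p = p' := nbrR h1 h3 h4 hpR hp.a2.symm
  subst hpp
  have hxp : x ≠ p := fun h => hcR x hx (h ▸ hpR)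
  rcases (h1.2.2.2 x).1 hqx with h | h | h
  · exact absurd h hxp
  · subst h
    exact ⟨w, h1, h4, h6⟩
  · subst h
    exfalso
    rcases (hp.2.2.2 q').1 h5 with h | h | h
    · exact h1.2.2.1 h
    · subst h
      exact G.loopless.1 _ h1.a2
    · subst h
      exact hqy h1.a2

/-- if `S` is a set for the configuration in which `s` is replaced by `y`, then `s ∉ S` -/
theorem swap_core {s y t o : V} (hs : s ∈ R) (hy : y ∈ core G R) (ht : t ∈ core G R)
    (hns : N3 G s y t o) (hty : G.Adj t y) (hoy : ¬ G.Adj o y) (hot : ¬ G.Adj o t)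
    {S : Finset V} (hS : IsC G (insert y (R.erase s)) S) : s ∉ S := by
  intro hsS
  have hcR := (core_isC (G := G) R).1
  have hyS : y ∉ S := fun h => hS.1 y h (mem_insert_self _ _)
  have hRS : ∀ r ∈ R, r ≠ s → r ∉ S := fun r hr hrs h =>
    hS.1 r h (mem_insert_of_mem (mem_erase.2 ⟨hrs, hr⟩))
  -- t and o are in S
  have hto : t ∈ S ∧ o ∈ S := by
    obtain ⟨u, hu, v, hv, huv, h1, h2⟩ := hS.2 s hsS
    rcases (hns.2.2.2 u).1 h1 with rfl | rfl | rfl
    · exact absurd hu hyS
    · rcases (hns.2.2.2 v).1 h2 with rfl | rfl | rfl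
      · exact absurd hv hyS
      · exact absurd rfl huv
      · exact ⟨hu, hv⟩
    · rcases (hns.2.2.2 v).1 h2 with rfl | rfl | rfl
      · exact absurd hv hyS
      · exact ⟨hv, hu⟩
      · exact absurd rfl huv
  refine parity (G := G) (S.filter (fun x => x ∈ core G R)) t (mem_filter.2 ⟨hto.1, ht⟩) ?_ ?_
  · intro x hx hxt
    obtain ⟨hxS, hxc⟩ := mem_filter.1 hx
    obtain ⟨p, q, w, h1, h2, h3, h4, h5, h6⟩ := core_struct hc hcf hit hxc
    by_cases hps : p = s
    · subst hps
      exfalso
      rcases (hns.2.2.2 x).1 h1.a1.symm with rfl | rfl | rfl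
      · exact hyS hxS
      · exact hxt rfl
      · rcases (hns.2.2.2 q).1 h5 with rfl | rfl | rfl
        · exact hoy h1.a2
        · exact hot h1.a2
        · exact G.loopless.1 _ h1.a2
    · have hpS := hRS p h2 hps
      have hqw : q ∈ S ∧ w ∈ S := by
        obtain ⟨u, hu, v, hv, huv, h7, h8⟩ := hS.2 x hxS
        rcases (h1.2.2.2 u).1 h7 with rfl | rfl | rfl
        · exact absurd hu hpS
        · rcases (h1.2.2.2 v).1 h8 with rfl | rfl | rfl
          · exact absurd hv hpS
          · exact absurd rfl huv
          · exact ⟨hu, hv⟩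
        · rcases (h1.2.2.2 v).1 h8 with rfl | rfl | rfl
          · exact absurd hv hpS
          · exact ⟨hv, hu⟩
          · exact absurd rfl huv
      refine ⟨q, w, h1.2.2.1, fun z => ?_⟩
      constructor
      · rintro ⟨h7, h8⟩
        rcases (h1.2.2.2 z).1 h8 with rfl | rfl | rfl
        · exact absurd (mem_filter.1 h7).1 hpS
        · exact Or.inl rfl
        · exact Or.inr rfl
      · rintro (rfl | rfl)
        · exact ⟨mem_filter.2 ⟨hqw.1, h3⟩, h1.a2⟩
        · exact ⟨mem_filter.2 ⟨hqw.2, h4⟩, h1.a3⟩
  · obtain ⟨p, q, w, h1, h2, h3, h4, h5, h6⟩ := core_struct hc hcf hit ht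
    have hsp : s = p := nbrR h1 h3 h4 hs hns.a2.symm
    subst hsp
    have hsc : s ∉ core G R := fun h => hcR s h hs
    -- the other neighbour
    have key : ∃ u, u ∈ core G R ∧ ∀ z, G.Adj t z ↔ z = s ∨ z = y ∨ z = u := by
      rcases (h1.2.2.2 y).1 hty with h | h | h
      · exact absurd (h ▸ hs) (hcR y hy)
      · subst h
        exact ⟨w, h4, h1.2.2.2⟩
      · subst h
        exact ⟨q, h3, fun z => by rw [h1.2.2.2]; tauto⟩
    obtain ⟨u, huc, hu⟩ := key
    have huS : u ∈ S := by
      obtain ⟨a, ha, b, hb, hab, h7, h8⟩ := hS.2 t hto.1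
      rcases (hu a).1 h7 with rfl | rfl | rfl
      · rcases (hu b).1 h8 with rfl | rfl | rfl
        · exact absurd rfl hab
        · exact absurd hb hyS
        · exact hb
      · exact absurd ha hyS
      · exact ha
    refine ⟨u, fun z => ?_⟩
    constructor
    · rintro ⟨h7, h8⟩
      obtain ⟨h9, h10⟩ := mem_filter.1 h7
      rcases (hu z).1 h8 with rfl | rfl | rfl
      · exact absurd h10 hsc
      · exact absurd h9 hyS
      · rfl
    · rintro rfl
      exact ⟨mem_filter.2 ⟨huS, huc⟩, (hu _).2 (Or.inr (Or.inr rfl))⟩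

end

section minimal

variable (hc : Cub G) (hcf : CF G) {A B : Finset V} (hV : Valid G A B)
  (hmin : ∀ A' B', Valid G A' B' → (core G (A ∪ B)).card ≤ (core G (A' ∪ B')).card)
include hc hcf hV hmin

theorem not_smaller {A' B' : Finset V} (hV' : Valid G A' B') (hsub : core G (A' ∪ B') ⊆
    core G (A ∪ B)) {x : V} (hx : x ∈ core G (A ∪ B)) (hx' : x ∉ core G (A' ∪ B')) : False := by
  have h1 := hmin A' B' hV'
  have h2 : core G (A' ∪ B') ⊂ core G (A ∪ B) :=
    (Finset.ssubset_iff_of_subset hsub).2 ⟨x, hx, hx'⟩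
  have h3 := Finset.card_lt_card h2
  omega

/-- in a diamond met by `B` in a middle vertex the other middle vertex is not in the core -/
theorem no_diamond_B {x p q y : V} (hx : x ∈ core G (A ∪ B)) (hxn : N3 G x p q y)
    (hpn : N3 G p x q y) (hpB : p ∈ B) (hq : q ∈ core G (A ∪ B)) (hy : y ∈ core G (A ∪ B))
    (hqy : ¬ G.Adj q y) : False := by
  have hcR := (core_isC (G := G) (A ∪ B)).1
  have hpR : p ∈ A ∪ B := mem_union_right _ hpB
  have hA : ∀ v ∈ core G (A ∪ B), v ∉ A := fun v hv h => hcR v hv (mem_union_left _ h)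
  have hpA : p ∉ A := fun h => hV.disj p h hpB
  obtain ⟨y', hq', hy'c, -⟩ := end_struct hc hcf hV.hit hx hpn hpR hq hxn.a2.symm hqy
  obtain ⟨z', hy'', hz'c, -⟩ := end_struct hc hcf hV.hit hx hpn.rot.swap.rot.rot hpR hy
    hxn.a3.symm (fun h => hqy h.symm)
  have hD : ∀ v ∈ A, D2 G x v → x = v := by
    rintro v hv (h | ⟨w, h1, h2⟩)
    · exfalso
      rcases (hxn.2.2.2 v).1 h with rfl | rfl | rfl
      · exact hpA hv
      · exact hA _ hq hv
      · exact hA _ hy hv
    · rcases (hxn.2.2.2 w).1 h1 with rfl | rfl | rfl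
      · rcases (hpn.2.2.2 v).1 h2 with rfl | rfl | rfl
        · rfl
        · exact absurd hv (hA _ hq)
        · exact absurd hv (hA _ hy)
      · rcases (hq'.2.2.2 v).1 h2 with rfl | rfl | rfl
        · exact absurd hv hpA
        · rfl
        · exact absurd hv (hA _ hy'c)
      · rcases (hy''.2.2.2 v).1 h2 with rfl | rfl | rfl
        · exact absurd hv hpA
        · rfl
        · exact absurd hv (hA _ hz'c)
  have hxR : x ∉ A ∪ B := hcR x hx
  have hV' : Valid G (insert x A) B := by
    refine ⟨?_, ?_, hV.pb, ?_⟩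
    · intro v hv hvB
      rcases mem_insert.1 hv with rfl | hv
      · exact hxR (mem_union_right _ hvB)
      · exact hV.disj v hv hvB
    · intro u hu v hv huv
      rcases mem_insert.1 hu with rfl | hu'
      · rcases mem_insert.1 hv with rfl | hv'
        · rfl
        · exact hD v hv' huv
      · rcases mem_insert.1 hv with rfl | hv'
        · exact (hD u hu' huv.symm).symm
        · exact hV.pa u hu' v hv' huv
    · intro a b c h1 h2 h3
      rcases hV.hit a b c h1 h2 h3 with h | h | h
      · exact Or.inl (union_subset_union_left (subset_insert _ _) h)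
      · exact Or.inr (Or.inl (union_subset_union_left (subset_insert _ _) h))
      · exact Or.inr (Or.inr (union_subset_union_left (subset_insert _ _) h))
  refine not_smaller hc hcf hV hmin hV' (core_mono (union_subset_union_left (subset_insert _ _)))
    hx ?_
  intro h
  exact (core_isC (G := G) (insert x A ∪ B)).1 x h (mem_union_left _ (mem_insert_self _ _))

/-- the exchange step -/
theorem exchange {x p q y y' s : V} (hx : x ∈ core G (A ∪ B)) (hxn : N3 G x p q y)
    (hpn : N3 G p x q y) (hpA : p ∈ A) (hq : q ∈ core G (A ∪ B)) (hy : y ∈ core G (A ∪ B))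
    (hqn : N3 G q p x y') (hy' : y' ∈ core G (A ∪ B)) (hs : s ∈ B) (hys : G.Adj y' s) :
    False := by
  have hcR := (core_isC (G := G) (A ∪ B)).1
  have hsR : s ∈ A ∪ B := mem_union_right _ hs
  have hcB : ∀ v ∈ core G (A ∪ B), v ∉ B := fun v hv h => hcR v hv (mem_union_right _ h)
  have hpB : p ∉ B := hV.disj p hpA
  obtain ⟨s', t, w, h1, h2, h3, h4, h5, h6⟩ := core_struct hc hcf hV.hit hy'
  have hss : s = s' := nbrR h1 h3 h4 hsR hys
  subst hss
  -- s is not adjacent to q
  have hsq : ¬ G.Adj s q := by
    intro h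
    rcases (hqn.2.2.2 s).1 h.symm with rfl | rfl | rfl
    · exact hpB hs
    · exact hcB _ hx hs
    · exact G.loopless.1 _ hys
  have hqw : q = w := by
    rcases (h1.2.2.2 q).1 hqn.a3.symm with h | h | h
    · exact absurd (h ▸ hs) (hcB q hq)
    · exact absurd (h ▸ h5) hsq
    · exact h
  subst hqw
  obtain ⟨o, ho⟩ := third hc hys.symm h5 (fun h => by subst h; exact G.loopless.1 _ h1.a2)
  have hoy : ¬ G.Adj o y' := by
    intro h
    rcases (h1.2.2.2 o).1 h.symm with rfl | rfl | rfl
    · exact G.loopless.1 _ ho.a3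
    · exact ho.2.2.1 rfl
    · exact hsq ho.a3
  have hot : ¬ G.Adj o t := by
    intro h
    have htn : N3 G t s y' o := full hc h5.symm h1.a2.symm h.symm
      (fun h' => by subst h'; exact G.loopless.1 _ hys)
      (fun h' => by subst h'; exact G.loopless.1 _ ho.a3) ho.2.1
    obtain ⟨p2, q2, w2, k1, k2, k3, k4, k5, k6⟩ := core_struct hc hcf hV.hit h3
    have hsp : s = p2 := nbrR k1 k3 k4 hsR h5.symm
    subst hsp
    have hoc : o ∈ core G (A ∪ B) := by
      rcases (k1.2.2.2 o).1 h.symm with h' | h' | h'
      · subst h'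
        exact absurd ho.a3 (G.loopless.1 _)
      · rw [h']; exact k3
      · rw [h']; exact k4
    exact no_diamond_B hc hcf hV hmin h3 htn ho.swap hs hy' hoc
      (fun h' => hoy h'.symm)
  have hy'R : y' ∉ A ∪ B := hcR y' hy'
  -- distances from y'
  have hD : ∀ v ∈ B, v ≠ s → ¬ D3 G y' v := by
    intro v hv hvs hD
    have hs3 : ¬ D3 G s v := fun h => hvs (hV.pb s hs v hv h).symm
    rcases hD with h | ⟨a, ha, hb⟩ | ⟨a, b, ha, hb, hd⟩
    · rcases (h1.2.2.2 v).1 h with rfl | rfl | rfl
      · exact hvs rfl
      · exact hcB _ h3 hv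
      · exact hcB _ hq hv
    · rcases (h1.2.2.2 a).1 ha with rfl | rfl | rfl
      · exact hs3 (Or.inl hb)
      · exact hs3 (Or.inr (Or.inl ⟨_, h5, hb⟩))
      · rcases (hqn.2.2.2 v).1 hb with rfl | rfl | rfl
        · exact hpB hv
        · exact hcB _ hx hv
        · exact hcB _ hy' hv
    · rcases (h1.2.2.2 a).1 ha with rfl | rfl | rfl
      · exact hs3 (Or.inr (Or.inl ⟨_, hb, hd⟩))
      · exact hs3 (Or.inr (Or.inr ⟨_, _, h5, hb, hd⟩))
      · rcases (hqn.2.2.2 b).1 hb with rfl | rfl | rfl
        · rcases (hpn.2.2.2 v).1 hd with rfl | rfl | rfl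
          · exact hcB _ hx hv
          · exact hcB _ hq hv
          · exact hcB _ hy hv
        · rcases (hxn.2.2.2 v).1 hd with rfl | rfl | rfl
          · exact hpB hv
          · exact hcB _ hq hv
          · exact hcB _ hy hv
        · rcases (h1.2.2.2 v).1 hd with rfl | rfl | rfl
          · exact hvs rfl
          · exact hcB _ h3 hv
          · exact hcB _ hq hv
  have hsA : s ∉ A := fun h => hV.disj s h hs
  have hRR : A ∪ insert y' (B.erase s) = insert y' ((A ∪ B).erase s) := by
    ext v
    simp only [mem_union, mem_insert, mem_erase]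
    constructor
    · rintro (h | h | h)
      · exact Or.inr ⟨fun h' => hsA (h' ▸ h), Or.inl h⟩
      · exact Or.inl h
      · exact Or.inr ⟨h.1, Or.inr h.2⟩
    · rintro (h | ⟨h, h' | h'⟩)
      · exact Or.inr (Or.inl h)
      · exact Or.inl h'
      · exact Or.inr (Or.inr ⟨h, h'⟩)
  have hV' : Valid G A (insert y' (B.erase s)) := by
    refine ⟨?_, hV.pa, ?_, ?_⟩
    · intro v hv hv'
      rcases mem_insert.1 hv' with rfl | h
      · exact hy'R (mem_union_left _ hv)
      · exact hV.disj v hv (mem_erase.1 h).2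
    · intro u hu v hv huv
      rcases mem_insert.1 hu with rfl | hu'
      · rcases mem_insert.1 hv with rfl | hv'
        · rfl
        · exact absurd huv (hD v (mem_erase.1 hv').2 (mem_erase.1 hv').1)
      · rcases mem_insert.1 hv with rfl | hv'
        · exact absurd huv.symm (hD u (mem_erase.1 hu').2 (mem_erase.1 hu').1)
        · exact hV.pb u (mem_erase.1 hu').2 v (mem_erase.1 hv').2 huv
    · -- triangles at s contain y'
      have hkey : ∀ b c, G.Adj s b → G.Adj b c → G.Adj s c → b = y' ∨ c = y' := by
        intro b c h7 h8 h9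
        rcases (ho.2.2.2 b).1 h7 with rfl | rfl | rfl
        · exact Or.inl rfl
        · rcases (ho.2.2.2 c).1 h9 with rfl | rfl | rfl
          · exact Or.inr rfl
          · exact absurd h8 (G.loopless.1 _)
          · exact absurd h8.symm hot
        · rcases (ho.2.2.2 c).1 h9 with rfl | rfl | rfl
          · exact Or.inr rfl
          · exact absurd h8 hot
          · exact absurd h8 (G.loopless.1 _)
      rw [hRR]
      intro a b c h7 h8 h9
      have hin : ∀ v, v ∈ A ∪ B → v ≠ s → v ∈ insert y' ((A ∪ B).erase s) :=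
        fun v hv hvs => mem_insert_of_mem (mem_erase.2 ⟨hvs, hv⟩)
      have hyin : ∀ v, v = y' → v ∈ insert y' ((A ∪ B).erase s) := fun v hv => by
        rw [hv]; exact mem_insert_self _ _
      rcases hV.hit a b c h7 h8 h9 with h | h | h
      · by_cases has : a = s
        · subst has
          rcases hkey b c h7 h8 h9 with h' | h'
          · exact Or.inr (Or.inl (hyin b h'))
          · exact Or.inr (Or.inr (hyin c h'))
        · exact Or.inl (hin a h has)
      · by_cases has : b = s
        · subst has
          rcases hkey a c h7.symm h9 h8 with h' | h'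
          · exact Or.inl (hyin a h')
          · exact Or.inr (Or.inr (hyin c h'))
        · exact Or.inr (Or.inl (hin b h has))
      · by_cases has : c = s
        · subst has
          rcases hkey a b h9.symm h7 h8.symm with h' | h'
          · exact Or.inl (hyin a h')
          · exact Or.inr (Or.inl (hyin b h'))
        · exact Or.inr (Or.inr (hin c h has))
  have hsub : core G (A ∪ insert y' (B.erase s)) ⊆ core G (A ∪ B) := by
    rw [hRR]
    intro v hv
    obtain ⟨S, hS, hvS⟩ := mem_core.1 hv
    have hsS := swap_core hc hcf hV.hit hsR hy' h3 ho h1.a2.symm hoy hot hS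
    refine mem_core.2 ⟨S, ⟨fun u hu huR => ?_, hS.2⟩, hvS⟩
    have hus : u ≠ s := fun h => hsS (h ▸ hu)
    exact hS.1 u hu (mem_insert_of_mem (mem_erase.2 ⟨hus, huR⟩))
  refine not_smaller hc hcf hV hmin hV' hsub hy' ?_
  intro h
  exact (core_isC (G := G) (A ∪ insert y' (B.erase s))).1 y' h
    (mem_union_right _ (mem_insert_self _ _))

/-- no diamond meets the core of a minimal configuration -/
theorem no_diamond {x p q y : V} (hx : x ∈ core G (A ∪ B)) (hxn : N3 G x p q y)
    (hpR : p ∈ A ∪ B) (hq : q ∈ core G (A ∪ B)) (hy : y ∈ core G (A ∪ B))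
    (hpq : G.Adj p q) (hqy : ¬ G.Adj q y) : ¬ G.Adj p y := by
  intro hpy
  have hcR := (core_isC (G := G) (A ∪ B)).1
  have hcB : ∀ v ∈ core G (A ∪ B), v ∉ B := fun v hv h => hcR v hv (mem_union_right _ h)
  have hcA : ∀ v ∈ core G (A ∪ B), v ∉ A := fun v hv h => hcR v hv (mem_union_left _ h)
  have hpn : N3 G p x q y := full hc hxn.a1.symm hpq hpy
    (fun h => by subst h; exact G.loopless.1 _ hxn.a2)
    (fun h => by subst h; exact G.loopless.1 _ hxn.a3) hxn.2.2.1
  rcases mem_union.1 hpR with hpA | hpB
  · have hpB : p ∉ B := hV.disj p hpA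
    obtain ⟨y', hqn, hy'c, -⟩ := end_struct hc hcf hV.hit hx hpn hpR hq hxn.a2.symm hqy
    obtain ⟨z', hyn, hz'c, -⟩ := end_struct hc hcf hV.hit hx hpn.rot.swap.rot.rot hpR hy
      hxn.a3.symm (fun h => hqy h.symm)
    have hxR : x ∉ A ∪ B := hcR x hx
    by_cases hs : ∃ s ∈ B, D3 G x s
    · obtain ⟨s, hs, hD⟩ := hs
      have n1 : ¬ G.Adj x s := by
        intro h
        rcases (hxn.2.2.2 s).1 h with rfl | rfl | rfl
        · exact hpB hs
        · exact hcB _ hq hs
        · exact hcB _ hy hs
      have n2 : ¬ G.Adj p s := by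
        intro h
        rcases (hpn.2.2.2 s).1 h with rfl | rfl | rfl
        · exact hcB _ hx hs
        · exact hcB _ hq hs
        · exact hcB _ hy hs
      have n3 : ¬ G.Adj q s := by
        intro h
        rcases (hqn.2.2.2 s).1 h with rfl | rfl | rfl
        · exact hpB hs
        · exact hcB _ hx hs
        · exact hcB _ hy'c hs
      have n4 : ¬ G.Adj y s := by
        intro h
        rcases (hyn.2.2.2 s).1 h with rfl | rfl | rfl
        · exact hpB hs
        · exact hcB _ hx hs
        · exact hcB _ hz'c hs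
      rcases hD with h | ⟨a, ha, hb⟩ | ⟨a, b, ha, hb, hd⟩
      · exact n1 h
      · rcases (hxn.2.2.2 a).1 ha with rfl | rfl | rfl
        · exact n2 hb
        · exact n3 hb
        · exact n4 hb
      · rcases (hxn.2.2.2 a).1 ha with rfl | rfl | rfl
        · rcases (hpn.2.2.2 b).1 hb with rfl | rfl | rfl
          · exact n1 hd
          · exact n3 hd
          · exact n4 hd
        · rcases (hqn.2.2.2 b).1 hb with rfl | rfl | rfl
          · exact n2 hd
          · exact n1 hd
          · exact exchange hc hcf hV hmin hx hxn hpn hpA hq hy hqn hy'c hs hd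
        · rcases (hyn.2.2.2 b).1 hb with rfl | rfl | rfl
          · exact n2 hd
          · exact n1 hd
          · exact exchange hc hcf hV hmin hx hxn.rot.swap.rot.rot hpn.rot.swap.rot.rot hpA hy hq
              hyn hz'c hs hd
    · -- add x to B
      have hV' : Valid G A (insert x B) := by
        refine ⟨?_, hV.pa, ?_, ?_⟩
        · intro v hv hv'
          rcases mem_insert.1 hv' with rfl | h
          · exact hxR (mem_union_left _ hv)
          · exact hV.disj v hv h
        · intro u hu v hv huv
          rcases mem_insert.1 hu with rfl | hu'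
          · rcases mem_insert.1 hv with rfl | hv'
            · rfl
            · exact absurd ⟨v, hv', huv⟩ hs
          · rcases mem_insert.1 hv with rfl | hv'
            · exact absurd ⟨u, hu', huv.symm⟩ hs
            · exact hV.pb u hu' v hv' huv
        · intro a b c h1 h2 h3
          rcases hV.hit a b c h1 h2 h3 with h | h | h
          · exact Or.inl (union_subset_union_right (subset_insert _ _) h)
          · exact Or.inr (Or.inl (union_subset_union_right (subset_insert _ _) h))
          · exact Or.inr (Or.inr (union_subset_union_right (subset_insert _ _) h))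
      refine not_smaller hc hcf hV hmin hV'
        (core_mono (union_subset_union_right (subset_insert _ _))) hx ?_
      intro h
      exact (core_isC (G := G) (A ∪ insert x B)).1 x h (mem_union_right _ (mem_insert_self _ _))
  · exact no_diamond_B hc hcf hV hmin hx hxn hpn hpB hq hy hqy

end minimal

end Pool.Agent.W2helper88.CP
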