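import Pool.Agent.W2helper88.ClawB

/-!
Claw-free cubic graphs: two-colouring the rest of a minimal configuration (helper file).
-/

set_option autoImplicit false
set_option linter.unusedSectionVars false
set_option linter.unusedVariables false

namespace Pool.Agent.W2helper88.CP

open Finset

/-- a union of two perfect matchings is bipartite -/
theorem two_inv {K : Type} [Finite K] (s t : K → K) (hs : ∀ x, s (s x) = x)
    (ht : ∀ x, t (t x) = x) (hs' : ∀ x, s x ≠ x) (ht' : ∀ x, t x ≠ x) :
    ∃ χ : K → Bool, ∀ x, χ (s x) ≠ χ x ∧ χ (t x) ≠ χ x := by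
  classical
  let S : Equiv.Perm K := Function.Involutive.toPerm s hs
  let T : Equiv.Perm K := Function.Involutive.toPerm t ht
  let ρ : Equiv.Perm K := S * T
  have hSinv : S⁻¹ = S := by
    rw [inv_eq_iff_mul_eq_one]
    ext x
    exact hs x
  have hTinv : T⁻¹ = T := by
    rw [inv_eq_iff_mul_eq_one]
    ext x
    exact ht x
  have hconj : S * ρ * S⁻¹ = ρ⁻¹ := by
    have hSS : S * S = 1 := by
      ext x
      exact hs x
    simp only [ρ, mul_inv_rev, hSinv, hTinv]
    rw [← mul_assoc, hSS, one_mul]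
  have hpow : ∀ (i : ℤ) (x : K), S ((ρ ^ i) x) = (ρ ^ (-i)) (S x) := by
    intro i x
    have h1 : S * ρ ^ i * S⁻¹ = ρ ^ (-i) := by
      rw [← conj_zpow, hconj, inv_zpow, zpow_neg]
    have h2 : S * ρ ^ i = ρ ^ (-i) * S := by
      rw [← h1, inv_mul_cancel_right]
    exact congrArg (fun f : Equiv.Perm K => f x) h2
  have hcan : ∀ (j : ℤ) (z : K), (ρ ^ (-j)) ((ρ ^ j) z) = z := by
    intro j z
    rw [← Equiv.Perm.mul_apply, ← zpow_add, neg_add_cancel, zpow_zero]
    rfl
  have hne : ∀ (i : ℤ) (x : K), (ρ ^ i) x ≠ s x := by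
    intro i x h
    rcases Int.even_or_odd' i with ⟨j, rfl | rfl⟩
    · have h1 : (ρ ^ j) x = S ((ρ ^ j) x) := by
        rw [hpow]
        have h2 : (ρ ^ (2 * j)) x = (ρ ^ j) ((ρ ^ j) x) := by
          rw [two_mul, zpow_add]
          rfl
        rw [h2] at h
        have h3 : S x = s x := rfl
        rw [h3, ← h, hcan]
      exact hs' _ h1.symm
    · have h1 : ρ ((ρ ^ j) x) = S ((ρ ^ j) x) := by
        rw [hpow]
        have h2 : (ρ ^ (2 * j + 1)) x = (ρ ^ j) (ρ ((ρ ^ j) x)) := by
          have : (2 * j + 1 : ℤ) = j + (1 + j) := by ring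
          rw [this, zpow_add, zpow_add, zpow_one]
          rfl
        rw [h2] at h
        have h3 : S x = s x := rfl
        rw [h3, ← h, hcan]
      have h2 : S (T ((ρ ^ j) x)) = S ((ρ ^ j) x) := h1
      exact ht' _ (S.injective h2)
  let st : Setoid K := Equiv.Perm.SameCycle.setoid ρ
  obtain ⟨e, he⟩ := exists_injective_nat (Quotient st)
  let m : K → Quotient st := fun x => Quotient.mk st x
  have hm : ∀ x, m x ≠ m (s x) := by
    intro x h
    have h1 : Equiv.Perm.SameCycle ρ x (s x) := Quotient.exact h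
    obtain ⟨i, hi⟩ := h1
    exact hne i x hi
  have hmt : ∀ x, m (t x) = m (s x) := by
    intro x
    apply Quotient.sound
    refine ⟨1, ?_⟩
    rw [zpow_one]
    show s (t (t x)) = s x
    rw [ht]
  have hmst : ∀ x, m (s (t x)) = m x := by
    intro x
    apply Eq.symm
    apply Quotient.sound
    refine ⟨1, ?_⟩
    rw [zpow_one]
    rfl
  refine ⟨fun x => decide (e (m x) < e (m (s x))), fun x => ?_⟩
  have hlt : e (m x) ≠ e (m (s x)) := fun h => hm x (he h)
  constructor
  · simp only [hs]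
    intro h
    rw [decide_eq_decide] at h
    omega
  · simp only [hmt, hmst]
    intro h
    rw [decide_eq_decide] at h
    omega

variable {V : Type} [Fintype V] [DecidableEq V] {G : SimpleGraph V}

/-- a two-colouring of the core extends to all vertices outside `R` -/
theorem extend_col {R : Finset V} (χ0 : V → Bool)
    (h0 : ∀ x ∈ core G R, ∀ y ∈ core G R, G.Adj x y → χ0 x ≠ χ0 y) :
    ∃ χ : V → Bool, ∀ x, x ∉ R → ∀ y, y ∉ R → G.Adj x y → χ x ≠ χ y := by
  classical
  have key : ∀ (n : ℕ) (T : Finset V), T.card = n → (∀ x ∈ T, x ∉ R) →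
      ∃ χ : V → Bool, ∀ x ∈ T, ∀ y ∈ T, G.Adj x y → χ x ≠ χ y := by
    intro n
    induction n with
    | zero =>
      intro T hT _
      rw [card_eq_zero] at hT
      subst hT
      exact ⟨χ0, fun x hx => absurd hx (notMem_empty x)⟩
    | succ n ih =>
      intro T hT hTR
      by_cases hC : IsC G R T
      · exact ⟨χ0, fun x hx y hy => h0 x (sub_core hC hx) y (sub_core hC hy)⟩
      · have : ∃ x ∈ T, ∀ u ∈ T, ∀ v ∈ T, G.Adj x u → G.Adj x v → u = v := by
          by_contra hcon
          push Not at hcon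
          apply hC
          refine ⟨hTR, fun x hx => ?_⟩
          obtain ⟨u, hu, v, hv, h1, h2, h3⟩ := hcon x hx
          exact ⟨u, hu, v, hv, h3, h1, h2⟩
        obtain ⟨x, hxT, hx⟩ := this
        obtain ⟨χ, hχ⟩ := ih (T.erase x) (by rw [card_erase_of_mem hxT, hT]; rfl)
          (fun y hy => hTR y (mem_erase.1 hy).2)
        by_cases hu : ∃ u ∈ T, G.Adj x u
        · obtain ⟨u, huT, hxu⟩ := hu
          have hux : u ≠ x := fun h => by subst h; exact G.loopless.1 _ hxu
          refine ⟨Function.update χ x (!χ u), fun a ha b hb hab => ?_⟩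
          by_cases hax : a = x
          · subst hax
            have hbu : b = u := hx b hb u huT hab hxu
            subst hbu
            rw [Function.update_self, Function.update_of_ne hux]
            cases χ b <;> simp
          · by_cases hbx : b = x
            · subst hbx
              have hau : a = u := hx a ha u huT hab.symm hxu
              subst hau
              rw [Function.update_self, Function.update_of_ne hux]
              cases χ a <;> simp
            · rw [Function.update_of_ne hax, Function.update_of_ne hbx]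
              exact hχ a (mem_erase.2 ⟨hax, ha⟩) b (mem_erase.2 ⟨hbx, hb⟩) hab
        · refine ⟨χ, fun a ha b hb hab => ?_⟩
          have hax : a ≠ x := fun h => hu ⟨b, hb, h ▸ hab⟩
          have hbx : b ≠ x := fun h => hu ⟨a, ha, h ▸ hab.symm⟩
          exact hχ a (mem_erase.2 ⟨hax, ha⟩) b (mem_erase.2 ⟨hbx, hb⟩) hab
  obtain ⟨χ, hχ⟩ := key _ (univ.filter (fun x => x ∉ R)) rfl (fun x hx => (mem_filter.1 hx).2)
  exact ⟨χ, fun x hx y hy => hχ x (mem_filter.2 ⟨mem_univ _, hx⟩) y (mem_filter.2 ⟨mem_univ _, hy⟩)⟩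

/-- the rest of a minimal configuration is bipartite -/
theorem two_colour (hc : Cub G) (hcf : CF G) {A B : Finset V} (hV : Valid G A B)
    (hmin : ∀ A' B', Valid G A' B' → (core G (A ∪ B)).card ≤ (core G (A' ∪ B')).card) :
    ∃ χ : V → Bool, ∀ x, x ∉ A ∪ B → ∀ y, y ∉ A ∪ B → G.Adj x y → χ x ≠ χ y := by
  classical
  set R := A ∪ B with hR
  have hcR := (core_isC (G := G) R).1
  -- structure at the core vertices
  have hst : ∀ x : {x // x ∈ core G R}, ∃ p, ∃ q y : {x // x ∈ core G R},
      N3 G x.1 p q.1 y.1 ∧ p ∈ R ∧ G.Adj p q.1 ∧ ¬ G.Adj q.1 y.1 ∧ ¬ G.Adj p y.1 := by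
    rintro ⟨x, hx⟩
    obtain ⟨p, q, y, h1, h2, h3, h4, h5, h6⟩ := core_struct hc hcf hV.hit hx
    exact ⟨p, ⟨q, h3⟩, ⟨y, h4⟩, h1, h2, h5, h6,
      no_diamond hc hcf hV hmin hx h1 h2 h3 h4 h5 h6⟩
  choose P s t h1 h2 h3 h4 h5 using hst
  have hsP : ∀ x, P (s x) = P x := by
    intro x
    exact (nbrR (h1 (s x)) (s (s x)).2 (t (s x)).2 (h2 x) (h3 x).symm).symm
  have hs : ∀ x, s (s x) = x := by
    intro x
    -- x is a neighbour of s x
    rcases ((h1 (s x)).2.2.2 x.1).1 (h1 x).a2.symm with h | h | h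
    · exact absurd (h ▸ h2 (s x)) (hcR x.1 x.2)
    · exact Subtype.ext h.symm
    · exfalso
      have h6 := h5 (s x)
      rw [hsP x, ← h] at h6
      exact h6 (h1 x).a1.symm
  have ht : ∀ x, t (t x) = x := by
    intro x
    rcases ((h1 (t x)).2.2.2 x.1).1 (h1 x).a3.symm with h | h | h
    · exact absurd (h ▸ h2 (t x)) (hcR x.1 x.2)
    · exfalso
      -- x = s (t x), so P (t x) is adjacent to x, hence equal to P x
      have h6 : G.Adj (P (t x)) x.1 := by
        rw [h]
        exact h3 (t x)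
      have h7 : P (t x) = P x := nbrR (h1 x) (s x).2 (t x).2 (h2 (t x)) h6.symm
      have h8 : G.Adj (P (t x)) (t x).1 := (h1 (t x)).a1.symm
      rw [h7] at h8
      exact h5 x h8
    · exact Subtype.ext h.symm
  have hs' : ∀ x, s x ≠ x := by
    intro x h
    have h6 := (h1 x).a2
    rw [h] at h6
    exact G.loopless.1 _ h6
  have ht' : ∀ x, t x ≠ x := by
    intro x h
    have h6 := (h1 x).a3
    rw [h] at h6
    exact G.loopless.1 _ h6
  obtain ⟨χ, hχ⟩ := two_inv s t hs ht hs' ht'
  refine extend_col (R := R) (fun x => if h : x ∈ core G R then χ ⟨x, h⟩ else true) ?_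
  intro x hx y hy hxy
  simp only [hx, hy, dif_pos]
  rcases ((h1 ⟨x, hx⟩).2.2.2 y).1 hxy with h | h | h
  · exact absurd (h ▸ h2 ⟨x, hx⟩) (hcR y hy)
  · have h6 : (⟨y, hy⟩ : {x // x ∈ core G R}) = s ⟨x, hx⟩ := Subtype.ext h
    rw [h6]
    exact (hχ ⟨x, hx⟩).1.symm
  · have h6 : (⟨y, hy⟩ : {x // x ∈ core G R}) = t ⟨x, hx⟩ := Subtype.ext h
    rw [h6]
    exact (hχ ⟨x, hx⟩).2.symm

end Pool.Agent.W2helper88.CP
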