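import Pool.Agent.W2helper88.ClawC

/-!
Claw-free cubic graphs: existence of a 2-packing and a 3-packing that meet all triangles
(helper file).
-/

set_option autoImplicit false
set_option linter.unusedSectionVars false
set_option linter.unusedVariables false

namespace Pool.Agent.W2helper88.CP

open Finset

variable {V : Type} [Fintype V] [DecidableEq V] {G : SimpleGraph V}

/-- an edge that lies in no triangle -/
def Out (G : SimpleGraph V) (x y : V) : Prop := G.Adj x y ∧ ∀ z, G.Adj x z → ¬ G.Adj y z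

theorem Out.symm {x y : V} (h : Out G x y) : Out G y x :=
  ⟨h.1.symm, fun z h1 h2 => h.2 z h2 h1⟩

/-- a vertex all of whose edges lie in triangles -/
def Mid (G : SimpleGraph V) (x : V) : Prop := ∀ y, ¬ Out G x y

theorem nf (hc : Cub G) (hcf : CF G) (x : V) : ∃ p q s, N3 G x p q s ∧ G.Adj p q ∧
    ((¬ G.Adj p s ∧ ¬ G.Adj q s) ∨ G.Adj p s) := by
  have key : ∀ p q s, N3 G x p q s → G.Adj p q → ∃ p q s, N3 G x p q s ∧ G.Adj p q ∧
      ((¬ G.Adj p s ∧ ¬ G.Adj q s) ∨ G.Adj p s) := by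
    intro p q s h hpq
    by_cases h1 : G.Adj p s
    · exact ⟨p, q, s, h, hpq, Or.inr h1⟩
    · by_cases h2 : G.Adj q s
      · exact ⟨q, p, s, h.swap, hpq.symm, Or.inr h2⟩
      · exact ⟨p, q, s, h, hpq, Or.inl ⟨h1, h2⟩⟩
  obtain ⟨a, b, c, h⟩ := hc x
  rcases hcf x a b c h.a1 h.a2 h.a3 h.1 h.2.1 h.2.2.1 with h1 | h1 | h1
  · exact key a b c h h1
  · exact key a c b h.swap.rot h1
  · exact key b c a h.rot h1

section
variable (hc : Cub G) (hcf : CF G)
include hc hcf

theorem out_unique {x y y' : V} (h : Out G x y) (h' : Out G x y') : y = y' := by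
  obtain ⟨p, q, s, h1, h2, -⟩ := nf hc hcf x
  have key : ∀ z, Out G x z → z = s := by
    intro z hz
    rcases (h1.2.2.2 z).1 hz.1 with rfl | rfl | rfl
    · exact absurd h2 (hz.2 q h1.a2)
    · exact absurd h2.symm (hz.2 p h1.a1)
    · rfl
  rw [key y h, key y' h']

/-- neighbourhoods of vertices without outgoing edge -/
theorem mid_nf {x : V} (hx : Mid G x) : ∃ p q s, N3 G x p q s ∧ N3 G p x q s ∧ Mid G p := by
  obtain ⟨p, q, s, h1, h2, h3⟩ := nf hc hcf x
  rcases h3 with ⟨h3, h4⟩ | h3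
  · exfalso
    refine hx s ⟨h1.a3, fun z hz hsz => ?_⟩
    rcases (h1.2.2.2 z).1 hz with rfl | rfl | rfl
    · exact h3 hsz.symm
    · exact h4 hsz.symm
    · exact G.loopless.1 _ hsz
  · have hp : N3 G p x q s := full hc h1.a1.symm h2 h3
      (fun h => by subst h; exact G.loopless.1 _ h1.a2)
      (fun h => by subst h; exact G.loopless.1 _ h1.a3) h1.2.2.1
    refine ⟨p, q, s, h1, hp, fun y hy => ?_⟩
    rcases (hp.2.2.2 y).1 hy.1 with rfl | rfl | rfl
    · exact hy.2 q h2 h1.a2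
    · exact hy.2 x hp.a1 h1.a2.symm
    · exact hy.2 x hp.a1 h1.a3.symm

/-- the third neighbour of `q` -/
theorem mid_third {x p q s t : V} (hx : N3 G x p q s) (hp : N3 G p x q s) (hq : N3 G q x p t)
    (ht : ¬ Out G q t) : t = s := by
  by_contra hts
  apply ht
  refine ⟨hq.a3, fun z hz htz => ?_⟩
  rcases (hq.2.2.2 z).1 hz with rfl | rfl | rfl
  · rcases (hx.2.2.2 t).1 htz.symm with h | h | h
    · exact hq.2.2.1 h.symm
    · subst h; exact G.loopless.1 _ hq.a3
    · exact hts h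
  · rcases (hp.2.2.2 t).1 htz.symm with h | h | h
    · exact hq.2.1 h.symm
    · subst h; exact G.loopless.1 _ hq.a3
    · exact hts h
  · exact G.loopless.1 _ htz

theorem mid_q {x p q s : V} (hx : N3 G x p q s) (hp : N3 G p x q s) :
    ∃ t, N3 G q x p t ∧ (¬ Out G q t → t = s) := by
  obtain ⟨t, ht⟩ := third hc hx.a2.symm hp.a2.symm
    (fun h => by subst h; exact G.loopless.1 _ hx.a1)
  exact ⟨t, ht, mid_third hc hcf hx hp ht⟩

/-- two vertices without outgoing edges at distance two are adjacent -/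
theorem mid_mid {u v : V} (hu : Mid G u) (hv : Mid G v) (h : D2 G u v) : u = v ∨ G.Adj u v := by
  rcases h with h | ⟨w, h1, h2⟩
  · exact Or.inr h
  · obtain ⟨p, q, s, hn, hp, -⟩ := mid_nf hc hcf hu
    have key : ∀ q s, N3 G u p q s → N3 G p u q s → G.Adj q v → u = v ∨ G.Adj u v := by
      intro q s hn hp hqv
      obtain ⟨t, ht, ht'⟩ := mid_q hc hcf hn hp
      rcases (ht.2.2.2 v).1 hqv with h | h | h
      · exact Or.inl h.symm
      · rw [h]; exact Or.inr hn.a1
      · subst h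
        rw [ht' (fun h => hv q h.symm)]
        exact Or.inr hn.a3
    rcases (hn.2.2.2 w).1 h1 with rfl | rfl | rfl
    · rcases (hp.2.2.2 v).1 h2 with rfl | rfl | rfl
      · exact Or.inl rfl
      · exact Or.inr hn.a2
      · exact Or.inr hn.a3
    · exact key _ _ hn hp h2
    · exact key _ _ hn.rot.swap.rot.rot hp.rot.swap.rot.rot h2

/-- `K_4` components are closed -/
theorem k4_closed {v : V} (hv : Mid G v) (hn : ∀ w, G.Adj v w → Mid G w) {w z : V}
    (h1 : G.Adj v w) (h2 : G.Adj w z) : z = v ∨ G.Adj v z := by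
  obtain ⟨p, q, s, hx, hp, -⟩ := mid_nf hc hcf hv
  have key : ∀ q s, N3 G v p q s → N3 G p v q s → G.Adj q z → z = v ∨ G.Adj v z := by
    intro q s hn' hp hqv
    obtain ⟨t, ht, ht'⟩ := mid_q hc hcf hn' hp
    rcases (ht.2.2.2 z).1 hqv with h | h | h
    · exact Or.inl h
    · rw [h]; exact Or.inr hn'.a1
    · subst h
      rw [ht' (hn q hn'.a2 _)]
      exact Or.inr hn'.a3
  rcases (hx.2.2.2 w).1 h1 with rfl | rfl | rfl
  · rcases (hp.2.2.2 z).1 h2 with rfl | rfl | rfl
    · exact Or.inl rfl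
    · exact Or.inr hx.a2
    · exact Or.inr hx.a3
  · exact key _ _ hx hp h2
  · exact key _ _ hx.rot.swap.rot.rot hp.rot.swap.rot.rot h2

theorem k4_d3 {v : V} (hv : Mid G v) (hn : ∀ w, G.Adj v w → Mid G w) {z : V}
    (h : D3 G v z) : z = v ∨ G.Adj v z := by
  rcases h with h | ⟨w, h1, h2⟩ | ⟨w, w', h1, h2, h3⟩
  · exact Or.inr h
  · exact k4_closed hc hcf hv hn h1 h2
  · rcases k4_closed hc hcf hv hn h1 h2 with h | h
    · subst h
      exact Or.inr h3
    · exact k4_closed hc hcf hv hn h h3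

end

/-- a triangle all of whose vertices have an outgoing edge -/
def PT (G : SimpleGraph V) (T : Finset V) : Prop :=
  T.card = 3 ∧ (∀ x ∈ T, ∀ y ∈ T, x ≠ y → G.Adj x y) ∧ ∀ x ∈ T, ∃ y, Out G x y

theorem PT.others {T : Finset V} (h : PT G T) {x : V} (hx : x ∈ T) :
    ∃ u v, u ≠ v ∧ u ≠ x ∧ v ≠ x ∧ u ∈ T ∧ v ∈ T := by
  have h1 : (T.erase x).card = 2 := by rw [card_erase_of_mem hx, h.1]
  obtain ⟨u, v, huv, h2⟩ := card_eq_two.1 h1
  have hu : u ∈ T.erase x := by rw [h2]; exact mem_insert_self _ _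
  have hv : v ∈ T.erase x := by rw [h2]; exact mem_insert_of_mem (mem_singleton_self _)
  exact ⟨u, v, huv, (mem_erase.1 hu).1, (mem_erase.1 hv).1, (mem_erase.1 hu).2,
    (mem_erase.1 hv).2⟩

theorem PT.adj (hc : Cub G) {T : Finset V} (h : PT G T) {x w : V} (hx : x ∈ T)
    (hw : G.Adj x w) : w ∈ T ∨ Out G x w := by
  obtain ⟨u, v, h1, h2, h3, h4, h5⟩ := h.others hx
  obtain ⟨r, hr⟩ := third hc (h.2.1 x hx u h4 h2.symm) (h.2.1 x hx v h5 h3.symm) h1
  have huv := h.2.1 u h4 v h5 h1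
  obtain ⟨y, hy⟩ := h.2.2 x hx
  have hyr : y = r := by
    rcases (hr.2.2.2 y).1 hy.1 with rfl | rfl | rfl
    · exact absurd huv (hy.2 v hr.a2)
    · exact absurd huv.symm (hy.2 u hr.a1)
    · rfl
  subst hyr
  rcases (hr.2.2.2 w).1 hw with rfl | rfl | rfl
  · exact Or.inl h4
  · exact Or.inl h5
  · exact Or.inr hy

theorem PT.not_out {T : Finset V} (h : PT G T) {x y : V} (hx : x ∈ T) (hy : Out G x y) :
    y ∉ T := by
  intro hyT
  obtain ⟨u, v, h1, h2, h3, h4, h5⟩ := h.others hx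
  have hxy : y ≠ x := fun h' => by subst h'; exact G.loopless.1 _ hy.1
  by_cases huy : u = y
  · subst huy
    exact hy.2 v (h.2.1 x hx v h5 h3.symm) (h.2.1 u h4 v h5 h1)
  · exact hy.2 u (h.2.1 x hx u h4 h2.symm) (h.2.1 y hyT u h4 (fun h' => huy h'.symm))

theorem PT.eq (hc : Cub G) {T T' : Finset V} (h : PT G T) (h' : PT G T') {x : V} (hx : x ∈ T)
    (hx' : x ∈ T') : T = T' := by
  apply eq_of_subset_of_card_le
  · intro w hw
    by_cases hwx : w = x
    · rw [hwx]; exact hx'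
    · rcases h'.adj hc hx' (h.2.1 x hx w hw (fun h'' => hwx h''.symm)) with h1 | h1
      · exact h1
      · exact absurd hw (h.not_out hx h1)
  · rw [h.1, h'.1]

/-- the triangle at a pair of adjacent vertices with outgoing edges that leave the pair -/
theorem PT.mk' (hc : Cub G) (hcf : CF G) {w w' u v : V} (hw : Out G w u) (hw' : Out G w' v)
    (h : G.Adj w w') (hu : w' ≠ u) (hv : w ≠ v) : ∃ T, PT G T ∧ w ∈ T ∧ w' ∈ T := by
  have h1 : ¬ Out G w w' := fun h' => hu (out_unique hc hcf h' hw)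
  obtain ⟨z, hz1, hz2⟩ : ∃ z, G.Adj w z ∧ G.Adj w' z := by
    by_contra hcon
    push Not at hcon
    exact h1 ⟨h, hcon⟩
  have hzw : z ≠ w := fun h' => by subst h'; exact G.loopless.1 _ hz1
  have hzw' : z ≠ w' := fun h' => by subst h'; exact G.loopless.1 _ hz2
  have hww' : w ≠ w' := fun h' => by subst h'; exact G.loopless.1 _ h
  have hzu : z ≠ u := fun h' => by subst h'; exact hw.2 w' h hz2.symm
  have hzv : z ≠ v := fun h' => by subst h'; exact hw'.2 w h.symm hz1.symm
  have hwn : N3 G w w' z u := full hc h hz1 hw.1 hzw'.symm hu hzu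
  have hwn' : N3 G w' w z v := full hc h.symm hz2 hw'.1 hzw.symm hv hzv
  have hzo : ∃ y, Out G z y := by
    obtain ⟨t, ht⟩ := third hc hz1.symm hz2.symm hww'
    refine ⟨t, ht.a3, fun r hr htr => ?_⟩
    rcases (ht.2.2.2 r).1 hr with rfl | rfl | rfl
    · rcases (hwn.2.2.2 t).1 htr.symm with h' | h' | h'
      · exact ht.2.2.1 h'.symm
      · subst h'; exact G.loopless.1 _ ht.a3
      · subst h'; exact hw.2 z hz1 ht.a3.symm
    · rcases (hwn'.2.2.2 t).1 htr.symm with h' | h' | h'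
      · exact ht.2.1 h'.symm
      · subst h'; exact G.loopless.1 _ ht.a3
      · subst h'; exact hw'.2 z hz2 ht.a3.symm
    · exact G.loopless.1 _ htr
  refine ⟨{w, w', z}, ⟨card_eq_three.2 ⟨w, w', z, hww', hzw.symm, hzw'.symm, rfl⟩, ?_, ?_⟩,
    by simp, by simp⟩
  · intro a ha b hb hab
    simp only [mem_insert, mem_singleton] at ha hb
    rcases ha with rfl | rfl | rfl <;> rcases hb with rfl | rfl | rfl
    · exact absurd rfl hab
    · exact h
    · exact hz1
    · exact h.symm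
    · exact absurd rfl hab
    · exact hz2
    · exact hz1.symm
    · exact hz2.symm
    · exact absurd rfl hab
  · intro a ha
    simp only [mem_insert, mem_singleton] at ha
    rcases ha with rfl | rfl | rfl
    · exact ⟨u, hw⟩
    · exact ⟨v, hw'⟩
    · exact hzo

end Pool.Agent.W2helper88.CP
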