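import Mathlib

/-!
# Fractional total domatic number of cubic graphs

Two ingredients.

* `two_color`: a family `F` of finite sets `N z` such that every nonempty subfamily `F'` has fewer
  members than points has a proper 2-colouring (Seymour's kernel vector argument).
* `flip`: let `N z` be the open neighbourhoods of a cubic graph, `x` a vertex. The sets `N z` in the
  component of `x` which do not contain `x` have a proper 2-colouring, and since there are fewer such
  sets than points, some point `u` is not the odd one of any set; so both colour classes, after `x` is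
  added to both and `u` removed from its class, meet all sets of the component.
-/

set_option autoImplicit false

namespace Pool.Agent.W2helper88.FTD

open Finset

variable {V : Type} [Fintype V] [DecidableEq V]

omit [Fintype V] in
/-- Seymour: if every nonempty subfamily has fewer members than points, there is a proper
2-colouring. -/
theorem two_color (N : V → Finset V) (F : Finset V)
    (h : ∀ F' ⊆ F, F'.Nonempty → F'.card < (F'.biUnion N).card) :
    ∃ c : V → Bool, ∀ z ∈ F, (∃ v ∈ N z, c v = true) ∧ (∃ v ∈ N z, c v = false) := by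
  classical
  induction F using Finset.strongInduction with
  | H F ih =>
    by_cases hF : F.Nonempty
    swap
    · exact ⟨fun _ => true, fun z hz => absurd ⟨z, hz⟩ hF⟩
    have hc := h F (Finset.Subset.refl _) hF
    set U := F.biUnion N with hU
    let ext : (U → ℝ) → V → ℝ := fun y v => if hv : v ∈ U then y ⟨v, hv⟩ else 0
    let L : (U → ℝ) →ₗ[ℝ] (F → ℝ) :=
      { toFun := fun y z => ∑ v ∈ N z, ext y v
        map_add' := by
          intro y y'
          funext z
          simp only [Pi.add_apply]
          rw [← Finset.sum_add_distrib]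
          refine Finset.sum_congr rfl fun v _ => ?_
          by_cases hv : v ∈ U
          · simp [ext, hv]
          · simp [ext, hv]
        map_smul' := by
          intro r y
          funext z
          simp only [Pi.smul_apply, smul_eq_mul, RingHom.id_apply]
          rw [Finset.mul_sum]
          refine Finset.sum_congr rfl fun v _ => ?_
          by_cases hv : v ∈ U
          · simp [ext, hv]
          · simp [ext, hv] }
    have hk : LinearMap.ker L ≠ ⊥ := by
      apply LinearMap.ker_ne_bot_of_finrank_lt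
      simpa using hc
    obtain ⟨y, hy, hy0⟩ := Submodule.exists_mem_ne_zero_of_ne_bot hk
    have hsum : ∀ z ∈ F, ∑ v ∈ N z, ext y v = 0 := by
      intro z hz
      exact congrFun (LinearMap.mem_ker.1 hy) ⟨z, hz⟩
    obtain ⟨⟨v0, hv0⟩, hyv0⟩ : ∃ v, y v ≠ 0 := by
      by_contra hcon
      push Not at hcon
      exact hy0 (funext hcon)
    have hext0 : ext y v0 ≠ 0 := by simpa [ext, hv0] using hyv0
    let Z := F.filter fun z => ∀ v ∈ N z, ext y v = 0
    have hZ : Z ⊂ F := by
      refine Finset.ssubset_iff_subset_ne.2 ⟨Finset.filter_subset _ _, fun heq => ?_⟩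
      obtain ⟨z, hz, hvz⟩ := Finset.mem_biUnion.1 hv0
      have : z ∈ Z := by rw [heq]; exact hz
      exact hext0 ((Finset.mem_filter.1 this).2 v0 hvz)
    obtain ⟨c, hcol⟩ := ih Z hZ fun F' hF' => h F' (hF'.trans hZ.1)
    refine ⟨fun v => if 0 < ext y v then true else if ext y v < 0 then false else c v, ?_⟩
    intro z hz
    by_cases hzZ : z ∈ Z
    · have h0 := (Finset.mem_filter.1 hzZ).2
      obtain ⟨⟨v, hv, hv1⟩, ⟨v', hv', hv1'⟩⟩ := hcol z hzZ
      exact ⟨⟨v, hv, by simp [h0 v hv, hv1]⟩, ⟨v', hv', by simp [h0 v' hv', hv1']⟩⟩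
    · have hne : ∃ v ∈ N z, ext y v ≠ 0 := by
        by_contra hcon
        push Not at hcon
        exact hzZ (Finset.mem_filter.2 ⟨hz, hcon⟩)
      obtain ⟨v, hv, hvpos⟩ := Finset.exists_pos_of_sum_zero_of_exists_nonzero _ (hsum z hz) hne
      have hsum' : ∑ v ∈ N z, (-ext y v) = 0 := by
        rw [Finset.sum_neg_distrib, hsum z hz, neg_zero]
      have hne' : ∃ v ∈ N z, -ext y v ≠ 0 := by
        obtain ⟨v, hv, hv'⟩ := hne
        exact ⟨v, hv, neg_ne_zero.2 hv'⟩
      obtain ⟨v', hv', hvneg⟩ := Finset.exists_pos_of_sum_zero_of_exists_nonzero _ hsum' hne'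
      have hvneg' : ext y v' < 0 := by linarith
      refine ⟨⟨v, hv, by simp [hvpos]⟩, ⟨v', hv', ?_⟩⟩
      simp [hvneg', not_lt.2 hvneg'.le]

section

variable (N : V → Finset V)

/-- two points in a common set -/
def R (v v' : V) : Prop := ∃ z, v ∈ N z ∧ v' ∈ N z

/-- the equivalence relation generated by `R` -/
def S : Setoid V := Relation.EqvGen.setoid (R N)

omit [Fintype V] [DecidableEq V] in
theorem S_of {z v v' : V} (h : v ∈ N z) (h' : v' ∈ N z) : (S N) v v' :=
  Relation.EqvGen.rel _ _ ⟨z, h, h'⟩

omit [Fintype V] [DecidableEq V] in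
/-- A set closed under `R` is closed under the equivalence relation. -/
theorem closed_of {U : Set V} (hU : ∀ v ∈ U, ∀ z, v ∈ N z → ∀ v' ∈ N z, v' ∈ U) {v v' : V}
    (h : (S N) v v') : v ∈ U ↔ v' ∈ U := by
  have h' : Relation.EqvGen (R N) v v' := h
  induction h' with
  | rel a b hab =>
    obtain ⟨z, ha, hb⟩ := hab
    exact ⟨fun hh => hU _ hh z ha _ hb, fun hh => hU _ hh z hb _ ha⟩
  | refl a => exact Iff.rfl
  | symm a b hab ih => exact (ih hab).symm
  | trans a b c hab hbc ih1 ih2 => exact (ih1 hab).trans (ih2 hbc)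

open Classical in
/-- The sets of the component of `x` which do not contain `x`. -/
noncomputable def Fx (x : V) : Finset V :=
  univ.filter fun z => (∃ v ∈ N z, (S N) v x) ∧ x ∉ N z

variable {N}

theorem hall (hsym : ∀ v z, v ∈ N z ↔ z ∈ N v) (h3 : ∀ z, (N z).card = 3) (x : V)
    (F' : Finset V) (hF' : F' ⊆ Fx N x) (hne : F'.Nonempty) :
    F'.card < (F'.biUnion N).card := by
  classical
  by_contra hcon
  push Not at hcon
  set U := F'.biUnion N with hU
  -- double counting
  have h1 : ∑ z ∈ F', (N z).card = ∑ v ∈ U, (F'.filter fun z => v ∈ N z).card := by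
    have := Finset.sum_card_bipartiteAbove_eq_sum_card_bipartiteBelow (s := F') (t := U)
      (fun z v => v ∈ N z)
    simp only [Finset.bipartiteAbove, Finset.bipartiteBelow] at this
    rw [← this]
    refine Finset.sum_congr rfl fun z hz => ?_
    congr 1
    ext v
    simp only [Finset.mem_filter]
    exact ⟨fun hv => ⟨Finset.mem_biUnion.2 ⟨z, hz, hv⟩, hv⟩, fun hv => hv.2⟩
  have h2 : ∀ v, (F'.filter fun z => v ∈ N z) = F' ∩ N v := by
    intro v
    ext z
    simp only [Finset.mem_filter, Finset.mem_inter]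
    rw [hsym v z]
  have h3' : ∀ v ∈ U, (F' ∩ N v).card ≤ 3 := fun v _ =>
    (Finset.card_le_card Finset.inter_subset_right).trans (h3 v).le
  have h4 : ∑ z ∈ F', (N z).card = F'.card * 3 := by
    rw [Finset.sum_congr rfl fun z _ => h3 z]
    simp
  have h5 : ∑ v ∈ U, (F' ∩ N v).card = F'.card * 3 := by
    rw [← h4, h1]
    exact Finset.sum_congr rfl fun v _ => by rw [h2 v]
  have h6 : ∀ v ∈ U, (F' ∩ N v).card = 3 := by
    have hle : ∑ v ∈ U, (F' ∩ N v).card ≤ ∑ v ∈ U, 3 := Finset.sum_le_sum h3'
    have hge : ∑ v ∈ U, 3 ≤ ∑ v ∈ U, (F' ∩ N v).card := by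
      rw [h5]
      simp only [Finset.sum_const, smul_eq_mul]
      exact Nat.mul_le_mul_right _ hcon
    exact (Finset.sum_eq_sum_iff_of_le h3').1 (le_antisymm hle hge)
  have h7 : ∀ v ∈ U, N v ⊆ F' := by
    intro v hv
    have : F' ∩ N v = N v := Finset.eq_of_subset_of_card_le Finset.inter_subset_right
      (by rw [h6 v hv, h3 v])
    rw [← this]
    exact Finset.inter_subset_left
  have hcl : ∀ v ∈ (U : Set V), ∀ z, v ∈ N z → ∀ v' ∈ N z, v' ∈ (U : Set V) := by
    intro v hv z hz v' hv'
    have hzF : z ∈ F' := h7 v (by exact_mod_cast hv) ((hsym v z).1 hz)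
    exact_mod_cast Finset.mem_biUnion.2 ⟨z, hzF, hv'⟩
  obtain ⟨z, hz⟩ := hne
  have hz' := hF' hz
  simp only [Fx, Finset.mem_filter, Finset.mem_univ, true_and] at hz'
  obtain ⟨⟨v, hv, hvx⟩, hxz⟩ := hz'
  have hvU : v ∈ (U : Set V) := by exact_mod_cast Finset.mem_biUnion.2 ⟨z, hz, hv⟩
  have hxU : x ∈ (U : Set V) := (closed_of N hcl hvx).1 hvU
  have hxU' : x ∈ U := by exact_mod_cast hxU
  obtain ⟨z', hz'F, hxz'⟩ := Finset.mem_biUnion.1 hxU'
  have := hF' hz'F
  simp only [Fx, Finset.mem_filter, Finset.mem_univ, true_and] at this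
  exact this.2 hxz'

/-- The key step: two sets meeting all `N z` of the component of `x`, which together cover every
vertex of the component once, except `x` (twice) and some `u` (not at all). -/
theorem flip (hsym : ∀ v z, v ∈ N z ↔ z ∈ N v) (h3 : ∀ z, (N z).card = 3) (x : V) :
    ∃ (u : V) (A B : Finset V), (S N) u x ∧
      (∀ v, ((if v ∈ A then 1 else 0) + (if v ∈ B then 1 else 0) : ℝ) =
        1 + (if x = v then 1 else 0) - (if u = v then 1 else 0)) ∧
      (∀ z, (∃ v ∈ N z, (S N) v x) → (∃ v ∈ N z, v ∈ A) ∧ (∃ v ∈ N z, v ∈ B)) := by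
  classical
  obtain ⟨c, hc⟩ := two_color N (Fx N x) (hall hsym h3 x)
  -- the flippable vertex
  obtain ⟨u, hux, hSu, hflip⟩ : ∃ u, u ≠ x ∧ (S N) u x ∧
      ∀ z ∈ Fx N x, u ∈ N z → ∃ v ∈ N z, v ≠ u ∧ c v = c u := by
    by_cases hne : (Fx N x).Nonempty
    · have hlt := hall hsym h3 x _ (Finset.Subset.refl _) hne
      have hex : ∃ u ∈ (Fx N x).biUnion N,
          ∀ z ∈ Fx N x, u ∈ N z → ∃ v ∈ N z, v ≠ u ∧ c v = c u := by
        by_contra hcon
        push Not at hcon
        choose! o ho1 ho2 ho3 using hcon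
        have hinj : Set.InjOn o ((Fx N x).biUnion N : Set V) := by
          intro u hu u' hu' heq
          by_contra hne'
          have hu0 : u ∈ (Fx N x).biUnion N := by exact_mod_cast hu
          have hu0' : u' ∈ (Fx N x).biUnion N := by exact_mod_cast hu'
          have hm : u ∈ N (o u) := ho2 u hu0
          have hm' : u' ∈ N (o u) := by rw [heq]; exact ho2 u' hu0'
          have hn := ho3 u hu0
          have hn' : ∀ v ∈ N (o u), v ≠ u' → c v ≠ c u' := by rw [heq]; exact ho3 u' hu0'
          have hcard : 2 < (N (o u)).card := by rw [h3]; norm_num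
          have : ∃ w ∈ N (o u), w ≠ u ∧ w ≠ u' := by
            by_contra hc2
            push Not at hc2
            have hsub : N (o u) ⊆ {u, u'} := by
              intro w hw
              simp only [Finset.mem_insert, Finset.mem_singleton]
              by_cases hwu : w = u
              · exact Or.inl hwu
              · exact Or.inr (hc2 w hw hwu)
            have := (Finset.card_le_card hsub).trans Finset.card_le_two
            omega
          obtain ⟨w, hw, hwu, hwu'⟩ := this
          have e1 := hn w hw hwu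
          have e2 := hn' w hw hwu'
          have e3 := hn u' hm' (Ne.symm hne')
          revert e1 e2 e3
          cases c w <;> cases c u <;> cases c u' <;> simp
        have hcardle : ((Fx N x).biUnion N).card ≤ (Fx N x).card :=
          Finset.card_le_card_of_injOn o (fun u hu => by
            have hu0 : u ∈ (Fx N x).biUnion N := by exact_mod_cast hu
            exact_mod_cast ho1 u hu0) hinj
        omega
      obtain ⟨u, hu, hfl⟩ := hex
      obtain ⟨z, hz, huz⟩ := Finset.mem_biUnion.1 hu
      have hz' := hz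
      simp only [Fx, Finset.mem_filter, Finset.mem_univ, true_and] at hz'
      obtain ⟨⟨v, hv, hvx⟩, hxz⟩ := hz'
      refine ⟨u, fun h => hxz (h ▸ huz), ?_, hfl⟩
      exact (S N).trans (S_of N huz hv) hvx
    · -- no such sets
      have hcx : (N x).Nonempty := by
        rw [← Finset.card_pos, h3]; norm_num
      obtain ⟨z, hz⟩ := hcx
      have hxz : x ∈ N z := (hsym x z).2 hz
      have : ∃ u ∈ N z, u ≠ x := by
        have h1 : 1 < (N z).card := by rw [h3]; norm_num
        obtain ⟨a, ha, hax⟩ := Finset.exists_mem_ne h1 x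
        exact ⟨a, ha, hax⟩
      obtain ⟨u, hu, hux⟩ := this
      exact ⟨u, hux, S_of N hu hxz, fun z hz => absurd ⟨z, hz⟩ hne⟩
  refine ⟨u, univ.filter fun v => v = x ∨ (c v = c u ∧ v ≠ u),
    univ.filter fun v => v = x ∨ c v ≠ c u, hSu, ?_, ?_⟩
  · intro v
    simp only [Finset.mem_filter, Finset.mem_univ, true_and]
    by_cases hvx : v = x
    · subst hvx
      have : ¬ u = v := hux
      simp only [true_or, if_true, this, if_false]
      norm_num
    · have hxv : ¬ x = v := fun h => hvx h.symm
      by_cases hvu : v = u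
      · subst hvu
        simp [hvx, hxv]
      · have huv : ¬ u = v := fun h => hvu h.symm
        by_cases hcv : c v = c u
        · simp [hvx, hxv, hvu, huv, hcv]
        · simp [hvx, hxv, hvu, huv, hcv]
  · intro z hz
    by_cases hxz : x ∈ N z
    · exact ⟨⟨x, hxz, by simp⟩, ⟨x, hxz, by simp⟩⟩
    · have hzF : z ∈ Fx N x := by
        simp only [Fx, Finset.mem_filter, Finset.mem_univ, true_and]
        exact ⟨hz, hxz⟩
      obtain ⟨⟨a, ha, hat⟩, ⟨b, hb, hbf⟩⟩ := hc z hzF
      constructor
      · by_cases huz : u ∈ N z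
        · obtain ⟨v, hv, hvu, hcv⟩ := hflip z hzF huz
          exact ⟨v, hv, by simp [hcv, hvu]⟩
        · cases hcu : c u
          · exact ⟨b, hb, by
              have : b ≠ u := fun h => huz (h ▸ hb)
              simp [hbf, this]⟩
          · exact ⟨a, ha, by
              have : a ≠ u := fun h => huz (h ▸ ha)
              simp [hat, this]⟩
      · cases hcu : c u
        · exact ⟨a, ha, by simp [hat]⟩
        · exact ⟨b, hb, by simp [hbf]⟩

/-- Neighbourhood systems with three-element sets: fractional 2-domatic partition. -/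
theorem main (hsym : ∀ v z, v ∈ N z ↔ z ∈ N v) (h3 : ∀ z, (N z).card = 3) :
    ∃ w : Finset V → ℝ, (∀ T, 0 ≤ w T) ∧
      (∀ T, w T ≠ 0 → ∀ z, ∃ v ∈ T, v ∈ N z) ∧
      (∀ v : V, ∑ T ∈ univ.filter (fun T : Finset V => v ∈ T), w T = 1) ∧
      ∑ T, w T = 2 := by
  classical
  choose u A B hSu hAB hhit using fun x => flip (N := N) hsym h3 x
  -- transversals
  let T : Type := {t : Quotient (S N) → V // ∀ q, Quotient.mk (S N) (t q) = q}
  let F : T → T := fun t => ⟨fun q => u (t.1 q), fun q => by
    have h1 : Quotient.mk (S N) (u (t.1 q)) = Quotient.mk (S N) (t.1 q) :=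
      Quotient.sound (hSu (t.1 q))
    rw [h1]
    exact t.2 q⟩
  have hTfin : Finite T := by
    have : Finite (Quotient (S N)) := inferInstance
    exact inferInstance
  let t0 : T := ⟨Quotient.out, fun q => Quotient.out_eq q⟩
  obtain ⟨i, j, hij, heq⟩ : ∃ i j : ℕ, i < j ∧ F^[i] t0 = F^[j] t0 := by
    obtain ⟨a, b, hab, he⟩ := Finite.exists_ne_map_eq_of_infinite fun n : ℕ => F^[n] t0
    rcases lt_or_gt_of_ne hab with h | h
    · exact ⟨a, b, h, he⟩
    · exact ⟨b, a, h, he.symm⟩
  let k := j - i
  have hk : 0 < k := Nat.sub_pos_of_lt hij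
  let s : ℕ → T := fun m => F^[m] (F^[i] t0)
  have hs0 : s k = s 0 := by
    show F^[k] (F^[i] t0) = F^[i] t0
    rw [← Function.iterate_add_apply, show k + i = j by omega]
    exact heq.symm
  have hs1 : ∀ m, s (m + 1) = F (s m) := fun m => Function.iterate_succ_apply' F m _
  let PA : ℕ → Finset V := fun m => univ.filter fun v => v ∈ A ((s m).1 (Quotient.mk (S N) v))
  let PB : ℕ → Finset V := fun m => univ.filter fun v => v ∈ B ((s m).1 (Quotient.mk (S N) v))
  have hPhit : ∀ m z, (∃ v ∈ PA m, v ∈ N z) ∧ (∃ v ∈ PB m, v ∈ N z) := by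
    intro m z
    have hne : (N z).Nonempty := by rw [← Finset.card_pos, h3]; norm_num
    obtain ⟨v0, hv0⟩ := hne
    set x := (s m).1 (Quotient.mk (S N) v0) with hx
    have hxv : (S N) v0 x := by
      have : Quotient.mk (S N) x = Quotient.mk (S N) v0 := (s m).2 _
      exact (S N).symm (Quotient.exact this)
    have hcl : ∀ v ∈ N z, (s m).1 (Quotient.mk (S N) v) = x := by
      intro v hv
      have : Quotient.mk (S N) v = Quotient.mk (S N) v0 := Quotient.sound (S_of N hv hv0)
      rw [this]
    obtain ⟨⟨a, ha, haA⟩, ⟨b, hb, hbB⟩⟩ := hhit x z ⟨v0, hv0, hxv⟩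
    refine ⟨⟨a, ?_, ha⟩, ⟨b, ?_, hb⟩⟩
    · simp only [PA, Finset.mem_filter, Finset.mem_univ, true_and]
      rw [hcl a ha]; exact haA
    · simp only [PB, Finset.mem_filter, Finset.mem_univ, true_and]
      rw [hcl b hb]; exact hbB
  have hkR : (k : ℝ) ≠ 0 := by exact_mod_cast hk.ne'
  refine ⟨fun T => (∑ m ∈ range k, ((if PA m = T then 1 else 0) + (if PB m = T then 1 else 0))) / k,
    fun T => ?_, fun T hT z => ?_, fun v => ?_, ?_⟩
  · refine div_nonneg (Finset.sum_nonneg fun m _ => ?_) (Nat.cast_nonneg _)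
    split_ifs <;> norm_num
  · have hne : ∑ m ∈ range k, (((if PA m = T then 1 else 0) + (if PB m = T then 1 else 0)) : ℝ) ≠ 0 := by
      intro h0
      exact hT (by show _ / _ = _; rw [h0, zero_div])
    obtain ⟨m, -, hm⟩ := Finset.exists_ne_zero_of_sum_ne_zero hne
    by_cases h1 : PA m = T
    · obtain ⟨v, hv, hvz⟩ := (hPhit m z).1
      exact ⟨v, h1 ▸ hv, hvz⟩
    · by_cases h2 : PB m = T
      · obtain ⟨v, hv, hvz⟩ := (hPhit m z).2
        exact ⟨v, h2 ▸ hv, hvz⟩
      · simp [h1, h2] at hm
  · rw [← Finset.sum_div, Finset.sum_comm]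
    have hin : ∀ m, ∑ T ∈ univ.filter (fun T : Finset V => v ∈ T),
        (((if PA m = T then 1 else 0) + (if PB m = T then 1 else 0)) : ℝ) =
        (if v ∈ PA m then 1 else 0) + (if v ∈ PB m then 1 else 0) := by
      intro m
      rw [Finset.sum_add_distrib]
      congr 1
      · rw [Finset.sum_ite_eq]
        simp
      · rw [Finset.sum_ite_eq]
        simp
    have hval : ∀ m, (((if v ∈ PA m then 1 else 0) + (if v ∈ PB m then 1 else 0)) : ℝ) =
        1 + ((if (s m).1 (Quotient.mk (S N) v) = v then 1 else 0)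
          - (if (s (m + 1)).1 (Quotient.mk (S N) v) = v then 1 else 0)) := by
      intro m
      have h1 : (s (m + 1)).1 (Quotient.mk (S N) v) = u ((s m).1 (Quotient.mk (S N) v)) := by
        rw [hs1 m]
      rw [h1]
      have := hAB ((s m).1 (Quotient.mk (S N) v)) v
      simp only [PA, PB, Finset.mem_filter, Finset.mem_univ, true_and]
      rw [this]
      ring
    rw [Finset.sum_congr rfl fun m _ => (hin m).trans (hval m), Finset.sum_add_distrib,
      Finset.sum_range_sub', hs0]
    simp [hkR]
  · rw [← Finset.sum_div, Finset.sum_comm]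
    have hin : ∀ m, ∑ T : Finset V,
        (((if PA m = T then 1 else 0) + (if PB m = T then 1 else 0)) : ℝ) = 2 := by
      intro m
      rw [Finset.sum_add_distrib, Finset.sum_ite_eq, Finset.sum_ite_eq]
      simp
      norm_num
    rw [Finset.sum_congr rfl fun m _ => hin m]
    simp only [Finset.sum_const, Finset.card_range, nsmul_eq_mul]
    field_simp

end

end Pool.Agent.W2helper88.FTD
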